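import Pool.Graph.R_seed8.Helper904.Kh.P_chain0
import Pool.Graph.R_seed8.Helper904.Kh.P_closureFacts
import Pool.Graph.R_seed8.Helper904.Kh.P_existsQ
import Pool.Graph.R_seed8.Helper904.Kh.P_nilMat
import Pool.Graph.R_seed8.Helper904.Kh.P_sig0facts
import Pool.Graph.R_seed8.Helper904.Kh.P_jjFacts

set_option autoImplicit false

/-! The construction of the library's files `Helper904.Kh` (for the prime 5), for `p = 2 m + 1`. -/

namespace Pool.Agent.H75Kh

open Matrix Pool.Agent.Helper904.Kh

/-- one half in a ring in which `2 m + 1 = 0` -/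
def hf (m : ℕ) (R : Type) [CommRing R] : R := ((m + 1 : ℕ) : R)

theorem hf_two {m : ℕ} {R : Type} [CommRing R] (h : ((2 * m + 1 : ℕ) : R) = 0) :
    2 * hf m R = 1 := by
  unfold hf
  push_cast at h ⊢
  linear_combination h

theorem map_hf {m : ℕ} {R S : Type} [CommRing R] [CommRing S] (f : R →+* S) :
    f (hf m R) = hf m S := map_natCast f _

/-- what we want: a finite `p`-group, `p = 2 m + 1`, of derived length more than `k` with an
endomorphism of order dividing `p` whose fixed points are central -/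
def Good (m k : ℕ) : Prop :=
  ∃ (G : Type) (_ : Group G) (_ : Finite G), IsPGroup (2 * m + 1) G ∧
    ∃ f : G →* G, (∀ g, f^[2 * m + 1] g = g) ∧
      (∀ g, f g = g → g ∈ Subgroup.center G) ∧ derivedSeries G k ≠ ⊥

/-- the ring with three derivations -/
structure RD (m : ℕ) (R : Type) [CommRing R] where
  σ : R →+* R
  da : R →+ R
  db : R →+ R
  dc : R →+ R
  da_mul : ∀ x y, da (x * y) = da x * y + x * da y
  db_mul : ∀ x y, db (x * y) = db x * y + x * db y
  dc_mul : ∀ x y, dc (x * y) = dc x * y + x * dc y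
  a : R
  b : R
  c : R
  σa : σ a = a
  σb : σ b = b - a
  σc : σ c = c + 2 * b - a
  da_a : da a = 1
  da_b : da b = 0
  da_c : da c = 0
  db_a : db a = 0
  db_b : db b = 1
  db_c : db c = 0
  dc_a : dc a = 0
  dc_b : dc b = 0
  dc_c : dc c = 1
  da_σ : ∀ r, da (σ r) = σ (da r) - σ (db r) - σ (dc r)
  db_σ : ∀ r, db (σ r) = σ (db r) + 2 * σ (dc r)
  dc_σ : ∀ r, dc (σ r) = σ (dc r)
  char : ((2 * m + 1 : ℕ) : R) = 0

/-- the bilinear form with values in matrices  -/
def form {R : Type} [CommRing R] {n : ℕ} (d : RD n R) (m k : M2 R) : M2 R :=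
  !![hf n R * (m.map d.db * k).trace, (m.map d.da * k).trace;
     (m.map d.dc * k).trace, -(hf n R * (m.map d.db * k).trace)]

/-- the matrix D -/
def DM {R : Type} [CommRing R] {n : ℕ} (d : RD n R) : M2 R := !![d.b, d.c; d.a, -d.b]


theorem ft_tr {R : Type} [CommRing R] (f : R → R) (m k : M2 R) :
    (m.map f * k).trace = f (m 0 0) * k 0 0 + f (m 0 1) * k 1 0 + f (m 1 0) * k 0 1 +
      f (m 1 1) * k 1 1 := by
  rw [Matrix.trace_fin_two, Matrix.mul_apply, Matrix.mul_apply, Fin.sum_univ_two,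
    Fin.sum_univ_two]
  simp only [Matrix.map_apply]
  ring

theorem ft_B {R : Type} [CommRing R] {n : ℕ} (d : RD n R) (m k : M2 R) :
    ((tau d.σ m).map d.db * tau d.σ k).trace =
      d.σ ((m.map d.db * k).trace) + 2 * d.σ ((m.map d.dc * k).trace) := by
  simp only [ft_tr, tau_00, tau_01, tau_10, tau_11, map_add, map_sub, map_mul, d.db_σ]
  ring

theorem ft_A {R : Type} [CommRing R] {n : ℕ} (d : RD n R) (m k : M2 R) :
    ((tau d.σ m).map d.da * tau d.σ k).trace =
      d.σ ((m.map d.da * k).trace) - d.σ ((m.map d.db * k).trace) -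
        d.σ ((m.map d.dc * k).trace) := by
  simp only [ft_tr, tau_00, tau_01, tau_10, tau_11, map_add, map_sub, map_mul, d.da_σ]
  ring

theorem ft_C {R : Type} [CommRing R] {n : ℕ} (d : RD n R) (m k : M2 R) :
    ((tau d.σ m).map d.dc * tau d.σ k).trace = d.σ ((m.map d.dc * k).trace) := by
  simp only [ft_tr, tau_00, tau_01, tau_10, tau_11, map_add, map_sub, map_mul, d.dc_σ]
  ring

theorem form_tau {R : Type} [CommRing R] {n : ℕ} (d : RD n R) (m k : M2 R) :
    form d (tau d.σ m) (tau d.σ k) = tau d.σ (form d m k) := by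
  have h00 : ∀ m k, form d m k 0 0 = hf n R * (m.map d.db * k).trace := fun _ _ => rfl
  have h01 : ∀ m k, form d m k 0 1 = (m.map d.da * k).trace := fun _ _ => rfl
  have h10 : ∀ m k, form d m k 1 0 = (m.map d.dc * k).trace := fun _ _ => rfl
  have h11 : ∀ m k, form d m k 1 1 = -(hf n R * (m.map d.db * k).trace) := fun _ _ => rfl
  have h3 : d.σ (hf n R) = hf n R := map_hf d.σ
  have hh := hf_two d.char
  have g00 : form d (tau d.σ m) (tau d.σ k) 0 0 = tau d.σ (form d m k) 0 0 := by
    rw [tau_00, h00, h00, h10, ft_B, map_mul, h3]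
    linear_combination (d.σ ((m.map d.dc * k).trace)) * hh
  have g01 : form d (tau d.σ m) (tau d.σ k) 0 1 = tau d.σ (form d m k) 0 1 := by
    rw [tau_01, h01, h00, h01, h10, h11, ft_A, map_neg, map_mul, h3]
    linear_combination (d.σ ((m.map d.db * k).trace)) * hh
  have g10 : form d (tau d.σ m) (tau d.σ k) 1 0 = tau d.σ (form d m k) 1 0 := by
    rw [tau_10, h10, h10, ft_C]
  have g11 : form d (tau d.σ m) (tau d.σ k) 1 1 = tau d.σ (form d m k) 1 1 := by
    rw [tau_11, h11, h11, h10, ft_B, map_neg, map_mul, h3]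
    linear_combination (-(d.σ ((m.map d.dc * k).trace))) * hh
  ext i j
  fin_cases i <;> fin_cases j
  · exact g00
  · exact g01
  · exact g10
  · exact g11

theorem form_mul {R : Type} [CommRing R] {p : ℕ} (d : RD p R) (m n k : M2 R) :
    form d (m * n) k = form d m (n * k) + form d n (k * m) := by
  ext i j
  fin_cases i <;> fin_cases j <;>
    simp only [form, Matrix.trace_fin_two, Matrix.mul_apply, Fin.sum_univ_two, Matrix.map_apply,
      d.da_mul, d.db_mul, d.dc_mul, map_add, Matrix.add_apply, Matrix.of_apply, Matrix.cons_val',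
      Matrix.cons_val_zero, Matrix.cons_val_one, Matrix.cons_val_fin_one, Fin.zero_eta,
      Fin.mk_one] <;> ring

theorem form_add_left {R : Type} [CommRing R] {p : ℕ} (d : RD p R) (m m' k : M2 R) :
    form d (m + m') k = form d m k + form d m' k := by
  ext i j
  fin_cases i <;> fin_cases j <;>
    simp only [form, Matrix.trace_fin_two, Matrix.mul_apply, Fin.sum_univ_two, Matrix.map_apply,
      map_add, Matrix.add_apply, Matrix.of_apply, Matrix.cons_val',
      Matrix.cons_val_zero, Matrix.cons_val_one, Matrix.cons_val_fin_one, Fin.zero_eta,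
      Fin.mk_one] <;> ring

theorem form_add_right {R : Type} [CommRing R] {p : ℕ} (d : RD p R) (m k k' : M2 R) :
    form d m (k + k') = form d m k + form d m k' := by
  ext i j
  fin_cases i <;> fin_cases j <;>
    simp only [form, Matrix.trace_fin_two, Matrix.mul_apply, Fin.sum_univ_two, Matrix.map_apply,
      map_add, Matrix.add_apply, Matrix.of_apply, Matrix.cons_val',
      Matrix.cons_val_zero, Matrix.cons_val_one, Matrix.cons_val_fin_one, Fin.zero_eta,
      Fin.mk_one] <;> ring

theorem form_sub_left {R : Type} [CommRing R] {p : ℕ} (d : RD p R) (m m' k : M2 R) :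
    form d (m - m') k = form d m k - form d m' k := by
  ext i j
  fin_cases i <;> fin_cases j <;>
    simp only [form, Matrix.trace_fin_two, Matrix.mul_apply, Fin.sum_univ_two, Matrix.map_apply,
      map_sub, Matrix.sub_apply, Matrix.of_apply, Matrix.cons_val',
      Matrix.cons_val_zero, Matrix.cons_val_one, Matrix.cons_val_fin_one, Fin.zero_eta,
      Fin.mk_one] <;> ring

theorem form_sub_right {R : Type} [CommRing R] {p : ℕ} (d : RD p R) (m k k' : M2 R) :
    form d m (k - k') = form d m k - form d m k' := by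
  ext i j
  fin_cases i <;> fin_cases j <;>
    simp only [form, Matrix.trace_fin_two, Matrix.mul_apply, Fin.sum_univ_two, Matrix.map_apply,
      map_sub, Matrix.sub_apply, Matrix.of_apply, Matrix.cons_val',
      Matrix.cons_val_zero, Matrix.cons_val_one, Matrix.cons_val_fin_one, Fin.zero_eta,
      Fin.mk_one] <;> ring

theorem form_JJ_left {R : Type} [CommRing R] {p : ℕ} (d : RD p R) (m k : M2 R) (hm : m ∈ JJ d.σ)
    (hk : tau d.σ k = k) : form d m k ∈ JJ d.σ := by
  obtain ⟨n, rfl⟩ := hm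
  refine ⟨form d n k, ?_⟩
  rw [form_sub_left, ← form_tau, hk]

theorem form_JJ_right {R : Type} [CommRing R] {p : ℕ} (d : RD p R) (m k : M2 R) (hm : tau d.σ m = m)
    (hk : k ∈ JJ d.σ) : form d m k ∈ JJ d.σ := by
  obtain ⟨n, rfl⟩ := hk
  refine ⟨form d m n, ?_⟩
  rw [form_sub_right, ← form_tau, hm]

theorem tau_DM {R : Type} [CommRing R] {n : ℕ} (d : RD n R) : tau d.σ (DM d) = DM d := by
  have h00 : DM d 0 0 = d.b := rfl
  have h01 : DM d 0 1 = d.c := rfl
  have h10 : DM d 1 0 = d.a := rfl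
  have h11 : DM d 1 1 = -d.b := rfl
  ext i j
  fin_cases i <;> fin_cases j
  · change tau d.σ (DM d) 0 0 = DM d 0 0
    rw [tau_00, h00, h10, d.σa, d.σb]; ring
  · change tau d.σ (DM d) 0 1 = DM d 0 1
    rw [tau_01, h00, h01, h10, h11, map_neg, d.σa, d.σb, d.σc]; ring
  · change tau d.σ (DM d) 1 0 = DM d 1 0
    rw [tau_10, h10, d.σa]
  · change tau d.σ (DM d) 1 1 = DM d 1 1
    rw [tau_11, h10, h11, map_neg, d.σa, d.σb]; ring

theorem DM_sq {R : Type} [CommRing R] {n : ℕ} (d : RD n R) :
    DM d * DM d = (d.b ^ 2 + d.a * d.c) • (1 : M2 R) := by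
  ext i j
  fin_cases i <;> fin_cases j <;>
    simp [DM, Matrix.mul_apply, Fin.sum_univ_two] <;> ring


theorem form_DM {R : Type} [CommRing R] {n : ℕ} (d : RD n R) (k : M2 R) :
    form d (1 + DM d) k = k - (hf n R * k.trace) • (1 : M2 R) := by
  have ha1 : d.da 1 = 0 := by
    have h := d.da_mul 1 1
    rw [mul_one, mul_one, one_mul] at h
    exact (left_eq_add.1 h)
  have hb1 : d.db 1 = 0 := by
    have h := d.db_mul 1 1
    rw [mul_one, mul_one, one_mul] at h
    exact (left_eq_add.1 h)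
  have hc1 : d.dc 1 = 0 := by
    have h := d.dc_mul 1 1
    rw [mul_one, mul_one, one_mul] at h
    exact (left_eq_add.1 h)
  have hh := hf_two d.char
  have hk : k.trace = k 0 0 + k 1 1 := Matrix.trace_fin_two k
  have e00 : (1 + DM d) 0 0 = 1 + d.b := rfl
  have e01 : (1 + DM d) 0 1 = 0 + d.c := rfl
  have e10 : (1 + DM d) 1 0 = 0 + d.a := rfl
  have e11 : (1 + DM d) 1 1 = 1 + -d.b := rfl
  have tb : ((1 + DM d).map d.db * k).trace = k 0 0 - k 1 1 := by
    rw [Matrix.trace_fin_two, Matrix.mul_apply, Matrix.mul_apply, Fin.sum_univ_two, Fin.sum_univ_two]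
    simp only [Matrix.map_apply, e00, e01, e10, e11, map_add, map_neg, map_zero, hb1, d.db_a, d.db_b,
      d.db_c]
    ring
  have ta : ((1 + DM d).map d.da * k).trace = k 0 1 := by
    rw [Matrix.trace_fin_two, Matrix.mul_apply, Matrix.mul_apply, Fin.sum_univ_two, Fin.sum_univ_two]
    simp only [Matrix.map_apply, e00, e01, e10, e11, map_add, map_neg, map_zero, ha1, d.da_a, d.da_b,
      d.da_c]
    ring
  have tc : ((1 + DM d).map d.dc * k).trace = k 1 0 := by
    rw [Matrix.trace_fin_two, Matrix.mul_apply, Matrix.mul_apply, Fin.sum_univ_two, Fin.sum_univ_two]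
    simp only [Matrix.map_apply, e00, e01, e10, e11, map_add, map_neg, map_zero, hc1, d.dc_a, d.dc_b,
      d.dc_c]
    ring
  unfold form
  rw [ta, tb, tc, hk]
  ext i j
  fin_cases i <;> fin_cases j
  · change hf n R * (k 0 0 - k 1 1) = k 0 0 - (hf n R * (k 0 0 + k 1 1)) * (1 : M2 R) 0 0
    rw [Matrix.one_apply_eq]
    linear_combination (k 0 0) * hh
  · change k 0 1 = k 0 1 - (hf n R * (k 0 0 + k 1 1)) * (1 : M2 R) 0 1
    rw [Matrix.one_apply_ne (by decide)]
    ring
  · change k 1 0 = k 1 0 - (hf n R * (k 0 0 + k 1 1)) * (1 : M2 R) 1 0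
    rw [Matrix.one_apply_ne (by decide)]
    ring
  · change -(hf n R * (k 0 0 - k 1 1)) = k 1 1 - (hf n R * (k 0 0 + k 1 1)) * (1 : M2 R) 1 1
    rw [Matrix.one_apply_eq]
    linear_combination (k 1 1) * hh

theorem detect {R : Type} [CommRing R] {n : ℕ} (d : RD n R) (k : M2 R) (hk : tau d.σ k = k)
    (h1 : form d (1 + DM d) k ∈ JJ d.σ) (h2 : (k * (1 + DM d)).trace ∈ JS d.σ) :
    k ∈ JJ d.σ := by
  rw [form_DM] at h1
  have hA : tau d.σ (1 + DM d) = 1 + DM d := by rw [map_add, map_one, tau_DM]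
  have h3 := JJ_trace _ _ (JJ_mul_right d.σ (1 + DM d) _ hA h1)
  have htr : (1 + DM d).trace = 2 := by
    rw [Matrix.trace_add, Matrix.trace_one]
    have : (DM d).trace = 0 := by
      simp [DM, Matrix.trace, Fin.sum_univ_two]
    rw [this]
    simp
  have h4 : ((k - (hf n R * k.trace) • (1 : M2 R)) * (1 + DM d)).trace =
      (k * (1 + DM d)).trace - k.trace := by
    rw [sub_mul, Matrix.trace_sub, Matrix.smul_mul, one_mul, Matrix.trace_smul, htr, smul_eq_mul]
    have h5 := hf_two d.char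
    linear_combination -k.trace * h5
  rw [h4] at h3
  have h6 : k.trace ∈ JS d.σ := by
    have := (JS d.σ).sub_mem h2 h3
    rwa [sub_sub_cancel] at this
  have h7 := JJ_scalar d.σ k.trace h6 (hf n R) (map_hf d.σ)
  have h8 := (JJ d.σ).add_mem h1 h7
  rwa [sub_add_cancel] at h8

end Pool.Agent.H75Kh
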