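import Pool.Agent.H75Kh.K1

set_option autoImplicit false

namespace Pool.Agent.H75Kh

open Matrix Pool.Agent.Helper904.Kh

theorem sub_pow_p {p : ℕ} [hp : Fact p.Prime] {P : Type} [CommRing P] (h : (p : P) = 0) (x y : P) :
    (x - y) ^ p = x ^ p - y ^ p := by
  obtain ⟨r, hr⟩ := (Commute.all (x - y) y).exists_add_pow_prime_eq hp.out
  rw [sub_add_cancel, h] at hr
  linear_combination -hr

theorem add_pow_p {p : ℕ} [hp : Fact p.Prime] {P : Type} [CommRing P] (h : (p : P) = 0) (x y : P) :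
    (x + y) ^ p = x ^ p + y ^ p := by
  obtain ⟨r, hr⟩ := (Commute.all x y).exists_add_pow_prime_eq hp.out
  rw [h] at hr
  linear_combination hr

/-- the division by the square of `a` -/
theorem poly_div {P : Type} [CommRing P] (n : ℕ) (h : ((2 * (n + 1) + 1 : ℕ) : P) = 0) (a b c : P) :
    ∃ Y : P, 2 * b ^ (2 * (n + 1) + 1) * (b ^ 2 + a * c) - 3 * b * (b ^ 2 + a * c) ^ (n + 1 + 1) +
      b ^ 3 * (b ^ 2 + a * c) ^ (n + 1) = a ^ 2 * Y := by
  obtain ⟨z, hz⟩ := Polynomial.powAddExpansion (b ^ 2) (a * c) (n + 1)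
  refine ⟨-(3 * ((n : P) + 1) * b ^ (2 * n + 1) * c ^ 2) - (2 * b ^ 3 + 3 * a * b * c) * z * c ^ 2, ?_⟩
  rw [pow_succ (b ^ 2 + a * c) (n + 1), hz, Nat.add_sub_cancel]
  push_cast at h ⊢
  linear_combination (-(b ^ (2 * n + 3) * a * c)) * h

/-- the second difference in the polynomial ring -/
theorem poly_second (n : ℕ) [hp : Fact (2 * (n + 1) + 1).Prime] :
    ∃ Y : MvPolynomial (Fin 3) (ZMod (2 * (n + 1) + 1)),
      sig0 (RingHom.id _) (sig0 (RingHom.id _) Y) - 2 * sig0 (RingHom.id _) Y + Y =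
        6 * (MvPolynomial.X 1 - MvPolynomial.X 0) *
          (MvPolynomial.X 1 ^ 2 + MvPolynomial.X 0 * MvPolynomial.X 2) ^ (n + 1) := by
  have h0 : ((2 * (n + 1) + 1 : ℕ) : MvPolynomial (Fin 3) (ZMod (2 * (n + 1) + 1))) = 0 := by
    have e : ((2 * (n + 1) + 1 : ℕ) : MvPolynomial (Fin 3) (ZMod (2 * (n + 1) + 1))) =
        MvPolynomial.C ((2 * (n + 1) + 1 : ℕ) : ZMod (2 * (n + 1) + 1)) := (map_natCast _ _).symm
    rw [e, ZMod.natCast_self, map_zero]
  obtain ⟨Y, hY⟩ := poly_div n h0 (MvPolynomial.X 0 : MvPolynomial (Fin 3) (ZMod (2 * (n + 1) + 1)))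
    (MvPolynomial.X 1) (MvPolynomial.X 2)
  refine ⟨Y, ?_⟩
  have ha0 : (MvPolynomial.X 0 : MvPolynomial (Fin 3) (ZMod (2 * (n + 1) + 1))) ^ 2 ≠ 0 :=
    pow_ne_zero _ (MvPolynomial.X_ne_zero _)
  apply mul_left_cancel₀ ha0
  set s := sig0 (RingHom.id (ZMod (2 * (n + 1) + 1))) with hs
  have s0 : s (MvPolynomial.X 0) = MvPolynomial.X 0 := sig0_X0 _
  have s1 : s (MvPolynomial.X 1) = MvPolynomial.X 1 - MvPolynomial.X 0 := sig0_X1 _
  have s2 : s (MvPolynomial.X 2) = MvPolynomial.X 2 + 2 * MvPolynomial.X 1 - MvPolynomial.X 0 :=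
    sig0_X2 _
  generalize (MvPolynomial.X 0 : MvPolynomial (Fin 3) (ZMod (2 * (n + 1) + 1))) = a at *
  generalize (MvPolynomial.X 1 : MvPolynomial (Fin 3) (ZMod (2 * (n + 1) + 1))) = b at *
  generalize (MvPolynomial.X 2 : MvPolynomial (Fin 3) (ZMod (2 * (n + 1) + 1))) = c at *
  have hN : s (b ^ 2 + a * c) = b ^ 2 + a * c := by
    rw [map_add, map_mul, map_pow, s0, s1, s2]; ring
  have hbp : s (b ^ (2 * (n + 1) + 1)) = b ^ (2 * (n + 1) + 1) - a ^ (2 * (n + 1) + 1) := by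
    rw [map_pow, s1, sub_pow_p h0]
  have hap : s (a ^ (2 * (n + 1) + 1)) = a ^ (2 * (n + 1) + 1) := by
    rw [map_pow, s0]
  rw [pow_succ (b ^ 2 + a * c) (n + 1)] at hY
  have hM : s ((b ^ 2 + a * c) ^ (n + 1)) = (b ^ 2 + a * c) ^ (n + 1) := by
    rw [map_pow, hN]
  generalize b ^ (2 * (n + 1) + 1) = B at *
  generalize a ^ (2 * (n + 1) + 1) = A' at *
  generalize (b ^ 2 + a * c) ^ (n + 1) = M at *
  generalize b ^ 2 + a * c = N at *
  have e1 := congrArg s hY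
  simp only [map_add, map_sub, map_mul, map_pow, map_ofNat, s0, s1, s2, hN, hbp, hM] at e1
  have e2 := congrArg s e1
  simp only [map_add, map_sub, map_mul, map_pow, map_ofNat, s0, s1, s2, hN, hbp, hap, hM] at e2
  linear_combination -e2 + 2 * e1 - hY

/-- the `p`-th power of the matrix `D` is in the image of `τ - 1` -/
theorem DM_pow_p {n : ℕ} [hp : Fact (2 * (n + 1) + 1).Prime] {R : Type} [CommRing R]
    (d : RD (n + 1) R) : (DM d) ^ (2 * (n + 1) + 1) ∈ JJ d.σ := by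
  rcases subsingleton_or_nontrivial R with hs | hs
  · have : (DM d) ^ (2 * (n + 1) + 1) = 0 := Subsingleton.elim _ _
    rw [this]
    exact (JJ d.σ).zero_mem
  haveI : CharP R (2 * (n + 1) + 1) := (CharP.charP_iff_prime_eq_zero hp.out).2 d.char
  obtain ⟨Y, hY⟩ := poly_second n
  let θ : MvPolynomial (Fin 3) (ZMod (2 * (n + 1) + 1)) →+* R :=
    MvPolynomial.eval₂Hom (ZMod.castHom (dvd_refl _) R) ![d.a, d.b, d.c]
  have t0 : θ (MvPolynomial.X 0) = d.a := by simp [θ]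
  have t1 : θ (MvPolynomial.X 1) = d.b := by simp [θ]
  have t2 : θ (MvPolynomial.X 2) = d.c := by simp [θ]
  have hθ : ∀ x, θ (sig0 (RingHom.id _) x) = d.σ (θ x) := by
    have h : θ.comp (sig0 (RingHom.id _)) = d.σ.comp θ := by
      apply MvPolynomial.ringHom_ext
      · intro r
        rw [RingHom.comp_apply, RingHom.comp_apply, sig0_C, RingHom.id_apply]
        have e : ∀ r, θ (MvPolynomial.C r) = ZMod.castHom (dvd_refl _) R r := fun r => by
          simp [θ]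
        rw [e]
        exact RingHom.congr_fun (RingHom.ext_zmod (ZMod.castHom (dvd_refl _) R)
          (d.σ.comp (ZMod.castHom (dvd_refl _) R))) r
      · intro i
        rw [RingHom.comp_apply, RingHom.comp_apply]
        revert i
        rw [Fin.forall_fin_succ, Fin.forall_fin_two]
        refine ⟨?_, ?_, ?_⟩
        · rw [sig0_X0, t0, d.σa]
        · show θ (sig0 _ (MvPolynomial.X 1)) = d.σ (θ (MvPolynomial.X 1))
          rw [sig0_X1, map_sub, t0, t1, d.σb]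
        · show θ (sig0 _ (MvPolynomial.X 2)) = d.σ (θ (MvPolynomial.X 2))
          rw [sig0_X2, map_sub, map_add, map_mul, map_ofNat, t0, t1, t2, d.σc]
    intro x
    exact RingHom.congr_fun h x
  have hy := congrArg θ hY
  simp only [map_add, map_sub, map_mul, map_pow, map_ofNat, hθ, t0, t1, t2] at hy
  obtain ⟨y, hy'⟩ : ∃ y, y = θ Y := ⟨_, rfl⟩
  rw [← hy'] at hy
  have hN : d.σ (d.b ^ 2 + d.a * d.c) = d.b ^ 2 + d.a * d.c := by
    rw [map_add, map_mul, map_pow, d.σa, d.σb, d.σc]; ring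
  have hM : d.σ ((d.b ^ 2 + d.a * d.c) ^ (n + 1)) = (d.b ^ 2 + d.a * d.c) ^ (n + 1) := by
    rw [map_pow, hN]
  have hD : (DM d) ^ (2 * (n + 1) + 1) = ((d.b ^ 2 + d.a * d.c) ^ (n + 1)) • DM d := by
    rw [pow_succ, pow_mul, pow_two, DM_sq, smul_pow, one_pow, smul_mul_assoc, one_mul]
  rw [hD]
  generalize (d.b ^ 2 + d.a * d.c) ^ (n + 1) = M at *
  obtain ⟨I, hI⟩ : ∃ I, I = d.σ y - y - (3 * d.c + 3 * d.b - d.a) * M := ⟨_, rfl⟩
  have hI' : d.σ I = I := by
    rw [hI]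
    simp only [map_sub, map_mul, map_add, map_ofNat, d.σa, d.σb, d.σc, hM]
    linear_combination hy
  have g00 : DM d 0 0 = d.b := rfl
  have g01 : DM d 0 1 = d.c := rfl
  have g10 : DM d 1 0 = d.a := rfl
  have g11 : DM d 1 1 = -d.b := rfl
  obtain ⟨Z, h00, h01, h10, h11⟩ : ∃ Z : M2 R, Z 0 0 = d.c * M + I ∧ Z 0 1 = y ∧
      Z 1 0 = -(d.b * M) ∧ Z 1 1 = -(d.c * M) :=
    ⟨!![d.c * M + I, y; -(d.b * M), -(d.c * M)], rfl, rfl, rfl, rfl⟩
  refine ⟨Z, ?_⟩
  ext i j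
  fin_cases i <;> fin_cases j
  · change M * DM d 0 0 = tau d.σ Z 0 0 - Z 0 0
    rw [tau_00, h00, h10, g00]
    simp only [map_neg, map_mul, map_add, d.σa, d.σb, d.σc, hM, hI']
    ring
  · change M * DM d 0 1 = tau d.σ Z 0 1 - Z 0 1
    rw [tau_01, h00, h01, h10, h11, g01]
    simp only [map_neg, map_mul, map_add, d.σa, d.σb, d.σc, hM, hI']
    linear_combination hI
  · change M * DM d 1 0 = tau d.σ Z 1 0 - Z 1 0
    rw [tau_10, h10, g10]
    simp only [map_neg, map_mul, map_add, d.σa, d.σb, d.σc, hM, hI']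
    ring
  · change M * DM d 1 1 = tau d.σ Z 1 1 - Z 1 1
    rw [tau_11, h10, h11, g11]
    simp only [map_neg, map_mul, map_add, d.σa, d.σb, d.σc, hM, hI']
    ring

end Pool.Agent.H75Kh
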