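import Pool.Agent.H75Kh.K2

set_option autoImplicit false

namespace Pool.Agent.H75Kh

open Matrix Pool.Agent.Helper904.Kh


/-- the extension -/
@[ext] structure EmBg (Γ V V' : Type) (c : Γ → Γ → V) where
  /-- first coordinate -/
  y : Γ
  /-- second coordinate -/
  v : V
  /-- third coordinate -/
  w : V'

/-- the group structure of the extension -/
@[reducible] def emGroup {Γ V V' : Type} [Group Γ] [AddCommGroup V] [AddCommGroup V']
    (c : Γ → Γ → V) (hc : ∀ g h k, c g (h * k) + c h k = c g h + c (g * h) k)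
    (hc1 : ∀ g, c 1 g = 0) : Group (EmBg Γ V V' c) :=
  letI : Mul (EmBg Γ V V' c) := ⟨fun e f => ⟨e.y * f.y, e.v + f.v + c e.y f.y, e.w + f.w⟩⟩
  letI : Inv (EmBg Γ V V' c) := ⟨fun e => ⟨e.y⁻¹, -e.v - c e.y⁻¹ e.y, -e.w⟩⟩
  letI : One (EmBg Γ V V' c) := ⟨⟨1, 0, 0⟩⟩
  Group.ofLeftAxioms
    (by
      intro a b d
      apply EmBg.ext
      · exact mul_assoc a.y b.y d.y
      · change (a.v + b.v + c a.y b.y) + d.v + c (a.y * b.y) d.y =
          a.v + (b.v + d.v + c b.y d.y) + c a.y (b.y * d.y)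
        have := hc a.y b.y d.y
        calc (a.v + b.v + c a.y b.y) + d.v + c (a.y * b.y) d.y =
            a.v + b.v + d.v + (c a.y b.y + c (a.y * b.y) d.y) := by abel
          _ = a.v + b.v + d.v + (c a.y (b.y * d.y) + c b.y d.y) := by rw [this]
          _ = _ := by abel
      · exact add_assoc a.w b.w d.w)
    (by
      intro a
      apply EmBg.ext
      · exact one_mul a.y
      · change 0 + a.v + c 1 a.y = a.v
        rw [hc1]; abel
      · exact zero_add a.w)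
    (by
      intro a
      apply EmBg.ext
      · exact inv_mul_cancel a.y
      · change (-a.v - c a.y⁻¹ a.y) + a.v + c a.y⁻¹ a.y = 0
        abel
      · exact neg_add_cancel a.w)

/-- A1: the group extension.  See the hint for the construction. -/
theorem extMain {mm : ℕ} {Γ V V' : Type} [Group Γ] [Finite Γ] [AddCommGroup V] [Finite V]
    [AddCommGroup V'] [Finite V'] (h5V : ∀ v : V, (2 * mm + 1) • v = 0) (h5V' : ∀ v : V', (2 * mm + 1) • v = 0)
    (c : Γ → Γ → V) (hc : ∀ g h k, c g (h * k) + c h k = c g h + c (g * h) k)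
    (hc1 : ∀ g, c 1 g = 0) (hc1' : ∀ g, c g 1 = 0)
    (φ₀ : Γ) (hφ₀ : φ₀ ^ (2 * mm + 1) = 1) (hcφ : ∀ g, c g φ₀ = 0)
    (χ : Γ → V') (hχ : ∀ g h, χ (g * h) = χ g + χ h)
    (N : Subgroup Γ) (hNn : N.Normal) (hN : IsPGroup (2 * mm + 1) N)
    (hdet : ∀ y ∈ N, c φ₀ y = 0 → χ y = 0 → y = 1)
    (k : ℕ) (hk : derivedSeries N k ≠ ⊥) : Good mm k := by
  let hG : Group (EmBg Γ V V' c) := emGroup c hc hc1
  have mul_def : ∀ e f : EmBg Γ V V' c, e * f = ⟨e.y * f.y, e.v + f.v + c e.y f.y, e.w + f.w⟩ :=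
    fun _ _ => rfl
  have one_def : (1 : EmBg Γ V V' c) = ⟨1, 0, 0⟩ := rfl
  have hfin : Finite (EmBg Γ V V' c) := by
    apply Finite.of_injective (fun e : EmBg Γ V V' c => (e.y, e.v, e.w))
    intro a b hab
    simp only [Prod.mk.injEq] at hab
    exact EmBg.ext hab.1 hab.2.1 hab.2.2
  have hcen : ∀ (v : V) (w : V') (e : EmBg Γ V V' c), (⟨1, v, w⟩ : EmBg Γ V V' c) * e =
      e * ⟨1, v, w⟩ := by
    intro v w e
    rw [mul_def, mul_def]
    apply EmBg.ext
    · change 1 * e.y = e.y * 1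
      rw [one_mul, mul_one]
    · change v + e.v + c 1 e.y = e.v + v + c e.y 1
      rw [hc1, hc1']; abel
    · change w + e.w = e.w + w
      abel
  have hχ1 : χ 1 = 0 := by
    have := hχ 1 1
    rw [mul_one] at this
    exact left_eq_add.1 this
  let pr : EmBg Γ V V' c →* Γ :=
    { toFun := fun e => e.y, map_one' := rfl, map_mul' := fun _ _ => rfl }
  let Z : V' → EmBg Γ V V' c := fun x => ⟨1, 0, x⟩
  have hZadd : ∀ a b, Z (a + b) = Z a * Z b := by
    intro a b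
    rw [mul_def]
    apply EmBg.ext
    · change (1:Γ) = 1 * 1
      rw [one_mul]
    · change (0:V) = 0 + 0 + c 1 1
      rw [hc1]; abel
    · rfl
  have hZc : ∀ a (e : EmBg Γ V V' c), Z a * e = e * Z a := fun a e => hcen 0 a e
  let Φ : EmBg Γ V V' c := ⟨φ₀, 0, 0⟩
  have hΦn : ∀ n : ℕ, Φ ^ n = ⟨φ₀ ^ n, 0, 0⟩ := by
    intro n
    induction n with
    | zero => rw [pow_zero, pow_zero]; rfl
    | succ n ih =>
      rw [pow_succ, ih, mul_def]
      apply EmBg.ext
      · exact (pow_succ φ₀ n).symm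
      · change (0:V) + 0 + c (φ₀ ^ n) φ₀ = 0
        rw [hcφ]; abel
      · change (0:V') + 0 = 0
        abel
  have hΦ5 : Φ ^ (2 * mm + 1) = 1 := by
    rw [hΦn, hφ₀]; rfl
  let F : EmBg Γ V V' c →* EmBg Γ V V' c :=
    { toFun := fun e => Φ * e * Φ⁻¹ * Z (χ e.y)
      map_one' := by
        have h1 : Z (χ (1 : EmBg Γ V V' c).y) = 1 := by
          change Z (χ 1) = 1
          rw [hχ1]; rfl
        rw [h1, mul_one, mul_one, mul_inv_cancel]
      map_mul' := by
        intro a b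
        have h1 : Z (χ (a * b).y) = Z (χ a.y) * Z (χ b.y) := by
          change Z (χ (a.y * b.y)) = _
          rw [hχ, hZadd]
        rw [h1]
        calc Φ * (a * b) * Φ⁻¹ * (Z (χ a.y) * Z (χ b.y)) =
            Φ * a * Φ⁻¹ * ((Φ * b * Φ⁻¹) * Z (χ a.y)) * Z (χ b.y) := by group
          _ = Φ * a * Φ⁻¹ * (Z (χ a.y) * (Φ * b * Φ⁻¹)) * Z (χ b.y) := by
              rw [hZc (χ a.y) (Φ * b * Φ⁻¹)]
          _ = _ := by simp only [mul_assoc] }
  have hFdef : ∀ e, F e = Φ * e * Φ⁻¹ * Z (χ e.y) := fun _ => rfl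
  have hχc : ∀ y, χ (φ₀ * y * φ₀⁻¹) = χ y := by
    intro y
    rw [hχ, hχ]
    have h1 : χ φ₀ + χ φ₀⁻¹ = 0 := by
      rw [← hχ, mul_inv_cancel, hχ1]
    calc χ φ₀ + χ y + χ φ₀⁻¹ = χ y + (χ φ₀ + χ φ₀⁻¹) := by abel
      _ = χ y := by rw [h1, add_zero]
  have hFy : ∀ e, (F e).y = φ₀ * e.y * φ₀⁻¹ := by
    intro e
    change φ₀ * e.y * φ₀⁻¹ * 1 = _
    rw [mul_one]
  have hFn : ∀ (n : ℕ) (e : EmBg Γ V V' c),
      F^[n] e = Φ ^ n * e * (Φ ^ n)⁻¹ * Z (n • χ e.y) ∧ χ (F^[n] e).y = χ e.y := by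
    intro n e
    induction n with
    | zero =>
      constructor
      · have h1 : Z (0 • χ e.y) = 1 := by rw [zero_smul]; rfl
        rw [h1]
        simp
      · rfl
    | succ n ih =>
      rw [Function.iterate_succ_apply']
      constructor
      · rw [hFdef, ih.2]
        nth_rewrite 1 [ih.1]
        have h1 : Z ((n + 1) • χ e.y) = Z (n • χ e.y) * Z (χ e.y) := by
          rw [succ_nsmul, hZadd]
        rw [h1]
        calc Φ * (Φ ^ n * e * (Φ ^ n)⁻¹ * Z (n • χ e.y)) * Φ⁻¹ * Z (χ e.y) =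
            Φ * (Φ ^ n * e * (Φ ^ n)⁻¹) * (Z (n • χ e.y) * Φ⁻¹) * Z (χ e.y) := by
              simp only [mul_assoc]
          _ = Φ * (Φ ^ n * e * (Φ ^ n)⁻¹) * (Φ⁻¹ * Z (n • χ e.y)) * Z (χ e.y) := by
              rw [hZc]
          _ = _ := by
              rw [pow_succ' Φ n, _root_.mul_inv_rev]
              simp only [mul_assoc]
      · rw [hFy, hχc, ih.2]
  have hF5 : ∀ e, F^[2 * mm + 1] e = e := by
    intro e
    rw [(hFn (2 * mm + 1) e).1, hΦ5]
    have h3 : Z ((2 * mm + 1) • χ e.y) = 1 := by rw [h5V']; rfl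
    rw [h3]
    simp
  let G : Subgroup (EmBg Γ V V' c) := N.comap pr
  have hmemG : ∀ e : EmBg Γ V V' c, e ∈ G ↔ e.y ∈ N := fun _ => Iff.rfl
  let f : G →* G := (F.comp G.subtype).codRestrict G (by
    intro g
    rw [hmemG]
    change (F g.1).y ∈ N
    rw [hFy]
    exact hNn.conj_mem _ g.2 _)
  have hfv : ∀ g : G, (f g).1 = F g.1 := fun _ => rfl
  refine ⟨G, inferInstance, inferInstance, ?_, f, ?_, ?_, ?_⟩
  · intro g
    obtain ⟨m, hm⟩ := hN ⟨g.1.y, g.2⟩
    refine ⟨m + 1, ?_⟩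
    have h1 : (g.1 ^ ((2 * mm + 1) ^ m)).y = 1 := by
      change pr (g.1 ^ ((2 * mm + 1) ^ m)) = 1
      rw [map_pow]
      exact congrArg Subtype.val hm
    have h2 : ∀ (n : ℕ) (v : V) (w : V'), (⟨1, v, w⟩ : EmBg Γ V V' c) ^ n = ⟨1, n • v, n • w⟩ := by
      intro n v w
      induction n with
      | zero => rw [pow_zero, zero_smul, zero_smul]; rfl
      | succ n ih =>
        rw [pow_succ, ih, mul_def]
        apply EmBg.ext
        · change (1:Γ) * 1 = 1
          rw [one_mul]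
        · change n • v + v + c 1 1 = (n + 1) • v
          rw [hc1, add_zero, succ_nsmul]
        · change n • w + w = (n + 1) • w
          rw [succ_nsmul]
    apply Subtype.ext
    change g.1 ^ ((2 * mm + 1) ^ (m + 1)) = 1
    rw [pow_succ, pow_mul]
    have h3 : g.1 ^ ((2 * mm + 1) ^ m) = ⟨1, (g.1 ^ ((2 * mm + 1) ^ m)).v, (g.1 ^ ((2 * mm + 1) ^ m)).w⟩ :=
      EmBg.ext h1 rfl rfl
    rw [h3, h2, h5V, h5V']
    rfl
  · intro g
    apply Subtype.ext
    have hit : ∀ n : ℕ, (f^[n] g).1 = F^[n] g.1 := by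
      intro n
      induction n with
      | zero => rfl
      | succ n ih => rw [Function.iterate_succ_apply', Function.iterate_succ_apply', hfv, ih]
    rw [hit]
    exact hF5 g.1
  · intro g hg
    have h1 : F g.1 = g.1 := congrArg Subtype.val hg
    have h2 : χ g.1.y = 0 := by
      have h3 := congrArg EmBg.w h1
      change (0 : V') + g.1.w + -0 + χ g.1.y = g.1.w at h3
      rw [zero_add, neg_zero, add_zero] at h3
      exact left_eq_add.1 h3.symm
    have h5 : Φ * g.1 = g.1 * Φ := by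
      rw [hFdef, h2] at h1
      have h6 : Z 0 = 1 := rfl
      rw [h6, mul_one] at h1
      exact mul_inv_eq_iff_eq_mul.1 h1
    have h7 : c φ₀ g.1.y = 0 := by
      have h8 := congrArg EmBg.v h5
      change (0 : V) + g.1.v + c φ₀ g.1.y = g.1.v + 0 + c g.1.y φ₀ at h8
      rw [hcφ, zero_add, add_zero, add_zero] at h8
      exact left_eq_add.1 h8.symm
    have h9 : g.1.y = 1 := hdet g.1.y g.2 h7 h2
    rw [Subgroup.mem_center_iff]
    intro x
    apply Subtype.ext
    change x.1 * g.1 = g.1 * x.1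
    have h10 : g.1 = ⟨1, g.1.v, g.1.w⟩ := EmBg.ext h9 rfl rfl
    rw [h10]
    exact (hcen _ _ _).symm
  · intro hbot
    apply hk
    let π : G →* N := (pr.comp G.subtype).codRestrict N (fun g => g.2)
    have hπ : Function.Surjective π := by
      intro n
      exact ⟨⟨⟨n.1, 0, 0⟩, n.2⟩, rfl⟩
    rw [← map_derivedSeries_eq hπ, hbot, Subgroup.map_bot]



/-- the derivation `x - π x` divided by `h` -/
def absMain_lam {Q : Type} [Ring Q] (π : Q →+* Q) (h : Qˣ) : Q := ((h : Q) - π h) * (↑(h⁻¹) : Q)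

theorem absMain_theta {Q : Type} [Ring Q] (π : Q →+* Q)
    (hπ : ∀ x y, (x - π x) * (y - π y) = 0) (x y : Q) :
    x * y - π (x * y) = (x - π x) * y + x * (y - π y) := by
  have h := hπ x y
  have e : x * y - π (x * y) = (x - π x) * y + x * (y - π y) - (x - π x) * (y - π y) := by
    rw [map_mul]
    noncomm_ring
  rw [e, h, sub_zero]

theorem absMain_lam_mul {Q : Type} [Ring Q] (π : Q →+* Q)
    (hπ : ∀ x y, (x - π x) * (y - π y) = 0) (g h : Qˣ) :
    absMain_lam π (g * h) = absMain_lam π g + g * absMain_lam π h * (↑(g⁻¹) : Q) := by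
  unfold absMain_lam
  rw [Units.val_mul, absMain_theta π hπ, _root_.mul_inv_rev, Units.val_mul, add_mul]
  congr 1
  · rw [mul_assoc, ← mul_assoc (h : Q), Units.mul_inv, one_mul]
  · simp only [mul_assoc]

theorem absMain_lam_one {Q : Type} [Ring Q] (π : Q →+* Q) : absMain_lam π (1 : Qˣ) = 0 := by
  unfold absMain_lam
  simp

theorem absMain_pgroup {mm : ℕ} [hp : Fact (2 * mm + 1).Prime] {Q : Type} [Ring Q] [Nontrivial Q]
    (h5Q : ((2 * mm + 1 : ℕ) : Q) = 0)
    (πt : Q →+* Q) (hnil : ∀ x, IsNilpotent (x - πt x)) :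
    IsPGroup (2 * mm + 1) (Units.map (πt : Q →* Q)).ker := by
  rintro ⟨y, hy⟩
  have hy1 : πt (y : Q) = 1 := by
    have h1 : Units.map (πt : Q →* Q) y = 1 := hy
    have h2 := congrArg (fun u : Qˣ => (u : Q)) h1
    simpa using h2
  obtain ⟨r, hr⟩ := hnil (y : Q)
  rw [hy1] at hr
  have hchar : CharP Q (2 * mm + 1) := (CharP.charP_iff_prime_eq_zero hp.out).2 h5Q
  refine ⟨r, ?_⟩
  apply Subtype.ext
  apply Units.ext
  show (y : Q) ^ (2 * mm + 1) ^ r = 1
  have e : (y : Q) = 1 + ((y : Q) - 1) := by abel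
  rw [e, add_pow_char_pow_of_commute _ _ (Commute.one_left _), one_pow]
  have hle : r ≤ (2 * mm + 1) ^ r := (Nat.lt_pow_self hp.out.one_lt).le
  rw [pow_eq_zero_of_le hle hr, add_zero]

/-- A2: from the ring data to the group extension -/
theorem absMain {mm : ℕ} [hp : Fact (2 * mm + 1).Prime] {Q W W' S L : Type} [Ring Q] [Finite Q] [AddCommGroup W] [Finite W]
    [AddCommGroup W'] [Finite W'] [Finite S] [Group L]
    (h5Q : ((2 * mm + 1 : ℕ) : Q) = 0) (h5W : ∀ w : W, (2 * mm + 1) • w = 0)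
    (h5W' : ∀ w : W', (2 * mm + 1) • w = 0)
    (β : Q → Q → W)
    (β_add_left : ∀ m m' k, β (m + m') k = β m k + β m' k)
    (β_add_right : ∀ m k k', β m (k + k') = β m k + β m k')
    (β_mul : ∀ m n k, β (m * n) k = β m (n * k) + β n (k * m))
    (T : Q → W') (T_add : ∀ a b, T (a + b) = T a + T b) (T_comm : ∀ a b, T (a * b) = T (b * a))
    (φ₀ : Qˣ) (hφ₀ : φ₀ ^ (2 * mm + 1) = 1)
    (det : ∀ k : Q, β φ₀ k = 0 → T (k * φ₀) = 0 → k = 0)
    (π : S → (Q →+* Q)) (hπ : ∀ s x y, (x - π s x) * (y - π s y) = 0)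
    (hπφ : ∀ s, π s φ₀ = φ₀)
    (πt : Q →+* Q) (hπt : ∀ y, (∀ s, π s y = y) → πt y = y)
    (hnil : ∀ x, IsNilpotent (x - πt x))
    (j : L →* Qˣ) (hj : ∀ l, πt (j l) = 1)
    (k : ℕ) (l : L) (hl : l ∈ derivedSeries L k) (hjl : j l ≠ 1) : Good mm k := by
  have hQ : Nontrivial Q := by
    by_contra h
    rw [not_nontrivial_iff_subsingleton] at h
    exact hjl (Units.ext (Subsingleton.elim _ _))
  have β_zero : ∀ m, β m 0 = 0 := by
    intro m
    have := β_add_right m 0 0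
    rw [add_zero] at this
    simpa using this
  have β_one : ∀ k, β 1 k = 0 := by
    intro k
    have := β_mul 1 1 k
    rw [one_mul, one_mul, mul_one] at this
    simpa using this
  have T_zero : T 0 = 0 := by
    have := T_add 0 0
    rw [add_zero] at this
    simpa using this
  refine extMain (Γ := Qˣ) (V := S → W) (V' := S → W')
    (fun v => funext fun s => h5W (v s)) (fun v => funext fun s => h5W' (v s))
    (fun g h => fun s => β g (absMain_lam (π s) h * (↑(g⁻¹) : Q))) ?_ ?_ ?_ φ₀ hφ₀ ?_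
    (fun g => fun s => T (absMain_lam (π s) g)) ?_
    (Units.map (πt : Q →* Q)).ker (MonoidHom.normal_ker _) (absMain_pgroup h5Q πt hnil) ?_ k ?_
  · intro g h k
    funext s
    show β g (absMain_lam (π s) (h * k) * (↑(g⁻¹) : Q)) +
      β h (absMain_lam (π s) k * (↑(h⁻¹) : Q)) =
      β g (absMain_lam (π s) h * (↑(g⁻¹) : Q)) +
      β (↑(g * h) : Q) (absMain_lam (π s) k * (↑((g * h)⁻¹) : Q))
    rw [absMain_lam_mul (π s) (hπ s), add_mul, β_add_right, _root_.mul_inv_rev, Units.val_mul,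
      Units.val_mul, β_mul]
    have e1 : absMain_lam (π s) k * ((↑(h⁻¹) : Q) * (↑(g⁻¹) : Q)) * (g : Q) =
        absMain_lam (π s) k * (↑(h⁻¹) : Q) := by
      rw [mul_assoc, mul_assoc, Units.inv_mul, mul_one]
    have e2 : (h : Q) * absMain_lam (π s) k * (↑(h⁻¹) : Q) * (↑(g⁻¹) : Q) =
        (h : Q) * (absMain_lam (π s) k * ((↑(h⁻¹) : Q) * (↑(g⁻¹) : Q))) := by
      simp only [mul_assoc]
    rw [e1, e2]
    abel
  · intro g
    funext s
    show β ((1 : Qˣ) : Q) _ = 0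
    rw [Units.val_one, β_one]
  · intro g
    funext s
    show β (g : Q) (absMain_lam (π s) 1 * (↑(g⁻¹) : Q)) = 0
    rw [absMain_lam_one, zero_mul, β_zero]
  · intro g
    funext s
    show β (g : Q) (absMain_lam (π s) φ₀ * (↑(g⁻¹) : Q)) = 0
    unfold absMain_lam
    rw [hπφ, sub_self, zero_mul, zero_mul, β_zero]
  · intro g h
    funext s
    show T (absMain_lam (π s) (g * h)) = T (absMain_lam (π s) g) + T (absMain_lam (π s) h)
    rw [absMain_lam_mul (π s) (hπ s), T_add, mul_assoc, T_comm, mul_assoc, Units.inv_mul, mul_one]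
  · intro y hy h1 h2
    have hy1 : πt (y : Q) = 1 := by
      have h1 : Units.map (πt : Q →* Q) y = 1 := hy
      have h2 := congrArg (fun u : Qˣ => (u : Q)) h1
      simpa using h2
    have hfix : ∀ s, π s (y : Q) = y := by
      intro s
      have e1 : β (φ₀ : Q) (absMain_lam (π s) y * (↑(φ₀⁻¹) : Q)) = 0 := congrFun h1 s
      have e2 : T (absMain_lam (π s) y) = 0 := congrFun h2 s
      have e3 := det (absMain_lam (π s) y * (↑(φ₀⁻¹) : Q)) e1 (by
        rw [mul_assoc, Units.inv_mul, mul_one]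
        exact e2)
      have e4 : absMain_lam (π s) y = 0 := by
        have := congrArg (fun z => z * (φ₀ : Q)) e3
        simp only [mul_assoc, Units.inv_mul, mul_one, zero_mul] at this
        exact this
      have e5 : (y : Q) - π s y = 0 := by
        have := congrArg (fun z => z * (y : Q)) e4
        unfold absMain_lam at this
        simp only [mul_assoc, Units.inv_mul, mul_one, zero_mul] at this
        exact this
      exact (sub_eq_zero.1 e5).symm
    have := hπt _ hfix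
    rw [hy1] at this
    exact Units.ext this.symm
  · intro hbot
    have hjN : ∀ l, j l ∈ (Units.map (πt : Q →* Q)).ker := by
      intro l
      rw [MonoidHom.mem_ker]
      apply Units.ext
      show πt (j l : Q) = 1
      exact hj l
    let jN : L →* (Units.map (πt : Q →* Q)).ker := j.codRestrict _ hjN
    have h1 := map_derivedSeries_le_derivedSeries jN k
    have h2 : jN l ∈ derivedSeries (Units.map (πt : Q →* Q)).ker k := h1 ⟨l, hl, rfl⟩
    rw [hbot, Subgroup.mem_bot] at h2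
    exact hjl (congrArg Subtype.val h2)



/-- entrywise image in the fixed ring -/
def mapFix {R : Type} [CommRing R] (σ f : R →+* R) (hf : ∀ x, f (σ x) = σ (f x)) (x : Fix σ) :
    Fix σ :=
  ⟨(x : M2 R).map f, by
    rw [mem_Fix, tau_map σ f hf, (mem_Fix σ _).1 x.2]⟩

theorem mapFix_coe {R : Type} [CommRing R] (σ f : R →+* R) (hf : ∀ x, f (σ x) = σ (f x))
    (x : Fix σ) : (mapFix σ f hf x : M2 R) = (x : M2 R).map f := rfl

theorem q_eq {R Q : Type} [CommRing R] [Ring Q] (σ : R →+* R) (q : Fix σ →+* Q)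
    (hq0 : ∀ x : Fix σ, q x = 0 ↔ (x : M2 R) ∈ JJ σ) (x y : Fix σ) :
    q x = q y ↔ (x : M2 R) - (y : M2 R) ∈ JJ σ := by
  rw [← sub_eq_zero, ← map_sub, hq0]
  rfl

theorem five_M {p : ℕ} {R : Type} [CommRing R] (h : (p : R) = 0) : (p : M2 R) = 0 := by
  have : (p : M2 R) = algebraMap R (M2 R) p := (map_natCast _ p).symm
  rw [this, h, map_zero]

theorem pow_five_one {p : ℕ} [hp : Fact p.Prime] {Q : Type} [Ring Q] (h5 : (p : Q) = 0) (x : Q)
    (hx : x ^ p = 0) : (1 + x) ^ p = 1 := by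
  obtain ⟨r, hr⟩ := (Commute.one_left x).exists_add_pow_prime_eq hp.out
  rw [hr, hx, h5]
  simp

theorem ringMain {n : ℕ} [hp : Fact (2 * (n + 1) + 1).Prime] {R S L : Type} [CommRing R] [Finite R]
    [Finite S] [Group L] (d : RD (n + 1) R)
    (π : S → R →+* R) (hπσ : ∀ s x, π s (d.σ x) = d.σ (π s x))
    (hπa : ∀ s, π s d.a = d.a) (hπb : ∀ s, π s d.b = d.b) (hπc : ∀ s, π s d.c = d.c)
    (hπ : ∀ s x y, (x - π s x) * (y - π s y) = 0)
    (πt : R →+* R) (hπt : πt ∈ Submonoid.closure (Set.range π))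
    (j : L →* M2 R) (hjτ : ∀ l, tau d.σ (j l) = j l) (hjπ : ∀ l, (j l).map πt = 1)
    (k : ℕ) (l : L) (hl : l ∈ derivedSeries L k) (hjl : j l - 1 ∉ JJ d.σ) : Good (n + 1) k := by
  obtain ⟨Q, hQr, hQf, q, hqs, hq0⟩ := exists_Q d.σ
  have hqe := q_eq d.σ q hq0
  haveI : Finite (M2 R) := inferInstanceAs (Finite (Fin 2 → Fin 2 → R))
  haveI : Finite (M2 R ⧸ JJ d.σ) := Quotient.finite _
  haveI : Finite (R ⧸ JS d.σ) := Quotient.finite _
  have h5M : ((2 * (n + 1) + 1 : ℕ) : M2 R) = 0 := five_M d.char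
  have h5F : ((2 * (n + 1) + 1 : ℕ) : Fix d.σ) = 0 := by
    apply Subtype.ext
    exact (map_natCast (Fix d.σ).subtype _).trans h5M
  have h5Q : ((2 * (n + 1) + 1 : ℕ) : Q) = 0 := by
    have h : q ((2 * (n + 1) + 1 : ℕ) : Fix d.σ) = ((2 * (n + 1) + 1 : ℕ) : Q) := map_natCast q _
    rw [← h, h5F, map_zero]
  have h5W : ∀ w : M2 R ⧸ JJ d.σ, (2 * (n + 1) + 1) • w = 0 := by
    intro w
    obtain ⟨m, rfl⟩ := QuotientAddGroup.mk_surjective w
    rw [← QuotientAddGroup.mk_nsmul, nsmul_eq_mul]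
    rw [h5M, zero_mul]
    rfl
  have h5W' : ∀ w : R ⧸ JS d.σ, (2 * (n + 1) + 1) • w = 0 := by
    intro w
    obtain ⟨m, rfl⟩ := QuotientAddGroup.mk_surjective w
    rw [← QuotientAddGroup.mk_nsmul, nsmul_eq_mul]
    rw [d.char, zero_mul]
    rfl
  -- section
  obtain ⟨sec, hsec⟩ : ∃ sec : Q → Fix d.σ, ∀ x, q (sec x) = x :=
    ⟨Function.surjInv hqs, Function.surjInv_eq hqs⟩
  have hsec' : ∀ m : Fix d.σ, ((sec (q m) : Fix d.σ) : M2 R) - (m : M2 R) ∈ JJ d.σ := by
    intro m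
    rw [← hqe, hsec]
  have hfix : ∀ m : Fix d.σ, tau d.σ (m : M2 R) = m := fun m => (mem_Fix d.σ _).1 m.2
  obtain ⟨β, hβ⟩ : ∃ β : Q → Q → M2 R ⧸ JJ d.σ, ∀ m k : Fix d.σ,
      β (q m) (q k) = QuotientAddGroup.mk (form d m k) := by
    refine ⟨fun x y => QuotientAddGroup.mk (form d (sec x) (sec y)), fun m k => ?_⟩
    rw [QuotientAddGroup.eq_iff_sub_mem]
    have h1 := form_JJ_left d _ (sec (q k) : M2 R) (hsec' m) (hfix _)
    have h2 := form_JJ_right d (m : M2 R) _ (hfix m) (hsec' k)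
    rw [form_sub_left] at h1
    rw [form_sub_right] at h2
    have h3 := (JJ d.σ).add_mem h1 h2
    rw [sub_add_sub_cancel] at h3
    exact h3
  obtain ⟨T, hT⟩ : ∃ T : Q → R ⧸ JS d.σ, ∀ m : Fix d.σ,
      T (q m) = QuotientAddGroup.mk ((m : M2 R).trace) := by
    refine ⟨fun x => QuotientAddGroup.mk ((sec x : M2 R).trace), fun m => ?_⟩
    rw [QuotientAddGroup.eq_iff_sub_mem, ← Matrix.trace_sub]
    exact JJ_trace d.σ _ (hsec' m)
  -- the unit
  obtain ⟨DF, hDF⟩ : ∃ DF : Fix d.σ, (DF : M2 R) = DM d := ⟨⟨DM d, tau_DM d⟩, rfl⟩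
  have hx5 : (q DF) ^ (2 * (n + 1) + 1) = 0 := by
    rw [← map_pow, hq0]
    have : ((DF ^ (2 * (n + 1) + 1) : Fix d.σ) : M2 R) = DM d ^ (2 * (n + 1) + 1) := by
      rw [← hDF]; exact SubmonoidClass.coe_pow _ _
    rw [this]
    exact DM_pow_p d
  have hg5 : (1 + q DF) ^ (2 * (n + 1) + 1) = 1 := pow_five_one h5Q _ hx5
  obtain ⟨φ₀, hφ₀, hφ5⟩ : ∃ φ₀ : Qˣ, (φ₀ : Q) = q (1 + DF) ∧ φ₀ ^ (2 * (n + 1) + 1) = 1 := by
    refine ⟨Units.ofPowEqOne _ (2 * (n + 1) + 1) hg5 (by omega), ?_, Units.pow_ofPowEqOne _ _⟩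
    rw [Units.val_ofPowEqOne, map_add, map_one]
  have hgc : ((1 + DF : Fix d.σ) : M2 R) = 1 + DM d := by rw [← hDF]; rfl
  -- the maps
  have hmapadd : ∀ (f : R →+* R) (m n : M2 R), (m - n).map f = m.map f - n.map f := by
    intro f m n
    exact Matrix.map_sub f (fun a b => map_sub f a b) m n
  choose πQ hπQ using fun s => exists_ind d.σ q hqs hq0 (π s) (hπσ s)
  have hπQ' : ∀ s (m : Fix d.σ), πQ s (q m) = q (mapFix d.σ (π s) (hπσ s) m) :=
    fun s m => hπQ s m _ rfl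
  have hct : ∀ x, πt (d.σ x) = d.σ (πt x) := comm_closure d.σ π hπσ πt hπt
  obtain ⟨F, hF⟩ := exists_ind d.σ q hqs hq0 πt hct
  have hF' : ∀ m : Fix d.σ, F (q m) = q (mapFix d.σ πt hct m) := fun m => hF m _ rfl
  -- the homomorphism
  let jF : L →* Fix d.σ :=
    { toFun := fun l => ⟨j l, hjτ l⟩
      map_one' := Subtype.ext (map_one j)
      map_mul' := fun a b => Subtype.ext (map_mul j a b) }
  have hjF : ∀ l, (jF l : M2 R) = j l := fun l => rfl
  refine absMain h5Q h5W h5W' β ?_ ?_ ?_ T ?_ ?_ φ₀ hφ5 ?_ πQ ?_ ?_ F ?_ ?_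
    ((q.toMonoidHom.comp jF).toHomUnits) ?_ k l hl ?_
  · intro m m' k
    obtain ⟨m, rfl⟩ := hqs m
    obtain ⟨m', rfl⟩ := hqs m'
    obtain ⟨k, rfl⟩ := hqs k
    rw [← map_add, hβ, hβ, hβ, ← QuotientAddGroup.mk_add, ← form_add_left]
    rfl
  · intro m k k'
    obtain ⟨m, rfl⟩ := hqs m
    obtain ⟨k', rfl⟩ := hqs k'
    obtain ⟨k, rfl⟩ := hqs k
    rw [← map_add, hβ, hβ, hβ, ← QuotientAddGroup.mk_add, ← form_add_right]
    rfl
  · intro m n k
    obtain ⟨m, rfl⟩ := hqs m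
    obtain ⟨n, rfl⟩ := hqs n
    obtain ⟨k, rfl⟩ := hqs k
    rw [← map_mul, ← map_mul, ← map_mul, hβ, hβ, hβ, ← QuotientAddGroup.mk_add]
    congr 1
    exact form_mul d m n k
  · intro a b
    obtain ⟨a, rfl⟩ := hqs a
    obtain ⟨b, rfl⟩ := hqs b
    rw [← map_add, hT, hT, hT, ← QuotientAddGroup.mk_add]
    congr 1
    exact Matrix.trace_add _ _
  · intro a b
    obtain ⟨a, rfl⟩ := hqs a
    obtain ⟨b, rfl⟩ := hqs b
    rw [← map_mul, ← map_mul, hT, hT]
    congr 1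
    exact Matrix.trace_mul_comm _ _
  · intro k h1 h2
    obtain ⟨k, rfl⟩ := hqs k
    rw [hφ₀, hβ, QuotientAddGroup.eq_zero_iff, hgc] at h1
    rw [hφ₀, ← map_mul, hT, QuotientAddGroup.eq_zero_iff] at h2
    have h3 : ((k * (1 + DF) : Fix d.σ) : M2 R) = (k : M2 R) * (1 + DM d) := by
      rw [← hgc]; rfl
    rw [h3] at h2
    rw [hq0]
    exact detect d k (hfix k) h1 h2
  · intro s x y
    obtain ⟨x, rfl⟩ := hqs x
    obtain ⟨y, rfl⟩ := hqs y
    rw [hπQ', hπQ', ← map_sub, ← map_sub, ← map_mul]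
    have : (x - mapFix d.σ (π s) (hπσ s) x) * (y - mapFix d.σ (π s) (hπσ s) y) = 0 := by
      apply Subtype.ext
      show ((x : M2 R) - (x : M2 R).map (π s)) * ((y : M2 R) - (y : M2 R).map (π s)) = 0
      ext i l
      rw [Matrix.mul_apply]
      simp [hπ]
    rw [this, map_zero]
  · intro s
    rw [hφ₀, hπQ']
    congr 1
    apply Subtype.ext
    rw [mapFix_coe, hgc]
    ext i l
    fin_cases i <;> fin_cases l <;> simp [DM, hπa, hπb, hπc]
  · intro y hy
    obtain ⟨y, rfl⟩ := hqs y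
    rw [hF', hqe, mapFix_coe]
    apply fix_closure d.σ π hπσ πt hπt
    intro s
    have := hy s
    rw [hπQ', hqe, mapFix_coe] at this
    exact this
  · intro x
    obtain ⟨x, rfl⟩ := hqs x
    rw [hF', ← map_sub]
    apply IsNilpotent.map
    have h1 : IsNilpotent ((x : M2 R) - (x : M2 R).map πt) := by
      apply nil_mat
      intro i l
      exact nil_closure π hπ πt hπt _
    obtain ⟨n, hn⟩ := h1
    exact ⟨n, Subtype.ext hn⟩
  · intro l
    rw [MonoidHom.coe_toHomUnits]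
    show F (q (jF l)) = 1
    rw [hF', ← map_one q]
    congr 1
    exact Subtype.ext (hjπ l)
  · intro h
    apply hjl
    have h1 : q (jF l) = q 1 := by
      have := congrArg Units.val h
      rw [MonoidHom.coe_toHomUnits] at this
      rw [map_one]
      exact this
    rw [hqe] at h1
    exact h1


end Pool.Agent.H75Kh
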