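import Pool.Agent.H75Kh.K3

set_option autoImplicit false

namespace Pool.Agent.H75Kh

open Matrix Pool.Agent.Helper904.Kh

/-- the ideal of the `p`-th powers of the variables -/
noncomputable def IP (mm : ℕ) (A : Type) [CommRing A] : Ideal (MvPolynomial (Fin 3) A) :=
  Ideal.span (Set.range fun i : Fin 3 => (MvPolynomial.X i : MvPolynomial (Fin 3) A) ^ (2 * mm + 1))



theorem I5_aux_five {p : ℕ} {A : Type} [CommRing A] (h5 : (p : A) = 0) :
    (p : MvPolynomial (Fin 3) A) = 0 := by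
  have h : (p : MvPolynomial (Fin 3) A) = MvPolynomial.C (p : A) := (map_natCast _ _).symm
  rw [h, h5, map_zero]

theorem I5_aux_X {mm : ℕ} {A : Type} [CommRing A] (i : Fin 3) :
    (MvPolynomial.X i : MvPolynomial (Fin 3) A) ^ (2 * mm + 1) ∈ IP mm A :=
  Ideal.subset_span ⟨i, rfl⟩

theorem I5_aux_s0 {A : Type} [CommRing A] (σ : A →+* A) :
    sig0 σ (MvPolynomial.X 0) = MvPolynomial.X 0 := by
  simp [sig0]

theorem I5_aux_s1 {A : Type} [CommRing A] (σ : A →+* A) :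
    sig0 σ (MvPolynomial.X 1) = MvPolynomial.X 1 - MvPolynomial.X 0 := by
  simp [sig0]

theorem I5_aux_s2 {A : Type} [CommRing A] (σ : A →+* A) :
    sig0 σ (MvPolynomial.X 2) =
      MvPolynomial.X 2 + 2 * MvPolynomial.X 1 - MvPolynomial.X 0 := by
  simp [sig0]

theorem I5_sig0 {mm : ℕ} [hp : Fact (2 * mm + 1).Prime] {A : Type} [CommRing A]
    (h5 : ((2 * mm + 1 : ℕ) : A) = 0) (σ : A →+* A)
    (r : MvPolynomial (Fin 3) A) (hr : r ∈ IP mm A) : sig0 σ r ∈ IP mm A := by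
  have h5' := I5_aux_five h5
  have hle : IP mm A ≤ (IP mm A).comap (sig0 σ) := by
    refine Ideal.span_le.2 ?_
    rintro _ ⟨i, rfl⟩
    rw [SetLike.mem_coe, Ideal.mem_comap, map_pow]
    revert i
    rw [Fin.forall_fin_succ, Fin.forall_fin_two]
    refine ⟨?_, ?_, ?_⟩
    · rw [I5_aux_s0]
      exact I5_aux_X 0
    · have e : Fin.succ (0 : Fin 2) = (1 : Fin 3) := rfl
      rw [e, I5_aux_s1, sub_pow_p h5']
      exact (IP mm A).sub_mem (I5_aux_X 1) (I5_aux_X 0)
    · have e : Fin.succ (1 : Fin 2) = (2 : Fin 3) := rfl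
      rw [e, I5_aux_s2, sub_pow_p h5', add_pow_p h5', mul_pow]
      exact (IP mm A).sub_mem ((IP mm A).add_mem (I5_aux_X 2) ((IP mm A).mul_mem_left _ (I5_aux_X 1)))
        (I5_aux_X 0)
  exact hle hr

theorem I5_pderiv {mm : ℕ} {A : Type} [CommRing A] (h5 : ((2 * mm + 1 : ℕ) : A) = 0) (i : Fin 3)
    (r : MvPolynomial (Fin 3) A) (hr : r ∈ IP mm A) : MvPolynomial.pderiv i r ∈ IP mm A := by
  have h5' := I5_aux_five h5
  unfold IP at hr
  refine Submodule.span_induction (p := fun r _ => MvPolynomial.pderiv i r ∈ IP mm A)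
    ?_ ?_ ?_ ?_ hr
  · rintro _ ⟨j, rfl⟩
    have h : MvPolynomial.pderiv i ((MvPolynomial.X j : MvPolynomial (Fin 3) A) ^ (2 * mm + 1)) = 0 := by
      rw [Derivation.leibniz_pow, nsmul_eq_mul, h5', zero_mul]
    show MvPolynomial.pderiv i ((MvPolynomial.X j : MvPolynomial (Fin 3) A) ^ (2 * mm + 1)) ∈ IP mm A
    rw [h]
    exact (IP mm A).zero_mem
  · rw [map_zero]
    exact (IP mm A).zero_mem
  · intro x y _ _ hx hy
    rw [map_add]
    exact (IP mm A).add_mem hx hy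
  · intro s x hx hx'
    rw [smul_eq_mul, Derivation.leibniz, smul_eq_mul, smul_eq_mul]
    exact (IP mm A).add_mem ((IP mm A).mul_mem_left _ hx') ((IP mm A).mul_mem_right _ hx)

theorem I5_map {mm : ℕ} {A : Type} [CommRing A] (f : A →+* A)
    (r : MvPolynomial (Fin 3) A) (hr : r ∈ IP mm A) : MvPolynomial.map f r ∈ IP mm A := by
  have hle : IP mm A ≤ (IP mm A).comap (MvPolynomial.map f) := by
    refine Ideal.span_le.2 ?_
    rintro _ ⟨i, rfl⟩
    show MvPolynomial.map f (MvPolynomial.X i ^ (2 * mm + 1)) ∈ IP mm A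
    rw [map_pow, MvPolynomial.map_X]
    exact I5_aux_X i
  exact hle hr

theorem I5_const {mm : ℕ} {A : Type} [CommRing A]
    (r : MvPolynomial (Fin 3) A) (hr : r ∈ IP mm A) : MvPolynomial.constantCoeff r = 0 := by
  have hle : IP mm A ≤ RingHom.ker (MvPolynomial.constantCoeff (R := A) (σ := Fin 3)) := by
    refine Ideal.span_le.2 ?_
    rintro _ ⟨i, rfl⟩
    show MvPolynomial.constantCoeff (MvPolynomial.X i ^ (2 * mm + 1) : MvPolynomial (Fin 3) A) = 0
    rw [map_pow, MvPolynomial.constantCoeff_X]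
    simp
  exact hle hr



theorem I5_finite {mm : ℕ} {A : Type} [CommRing A] [Finite A] : Finite (MvPolynomial (Fin 3) A ⧸ IP mm A) := by
  have hadj : Algebra.adjoin A (Set.range fun i : Fin 3 =>
      (Ideal.Quotient.mkₐ A (IP mm A)) (MvPolynomial.X i)) = ⊤ := by
    have h1 := MvPolynomial.adjoin_range_X (R := A) (σ := Fin 3)
    have h2 := congrArg (Subalgebra.map (Ideal.Quotient.mkₐ A (IP mm A))) h1
    rw [AlgHom.map_adjoin, Algebra.map_top, ← Set.range_comp] at h2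
    rw [AlgHom.range_eq_top (Ideal.Quotient.mkₐ A (IP mm A)) |>.2
      (Ideal.Quotient.mkₐ_surjective A (IP mm A))] at h2
    exact h2
  have hfg := fg_adjoin_of_finite (R := A) (s := Set.range fun i : Fin 3 =>
      (Ideal.Quotient.mkₐ A (IP mm A)) (MvPolynomial.X i)) (Set.finite_range _) (by
    rintro _ ⟨i, rfl⟩
    refine IsIntegral.of_pow (n := 2 * mm + 1) (by omega) ?_
    have h0 : (Ideal.Quotient.mkₐ A (IP mm A)) (MvPolynomial.X i) ^ (2 * mm + 1) = 0 := by
      rw [← map_pow, Ideal.Quotient.mkₐ_eq_mk]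
      exact Ideal.Quotient.eq_zero_iff_mem.2 (Ideal.subset_span ⟨i, rfl⟩)
    rw [h0]
    exact isIntegral_zero)
  rw [hadj, Algebra.top_toSubmodule] at hfg
  haveI : Module.Finite A (MvPolynomial (Fin 3) A ⧸ IP mm A) := ⟨hfg⟩
  exact Module.finite_of_finite A




section trunc

variable {mm : ℕ} {A : Type} [CommRing A]

/-- the truncated polynomial ring -/
abbrev TR (mm : ℕ) (A : Type) [CommRing A] : Type := MvPolynomial (Fin 3) A ⧸ IP mm A

/-- additive maps descend -/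
noncomputable def tA (F : MvPolynomial (Fin 3) A →+ MvPolynomial (Fin 3) A)
    (hF : ∀ r ∈ IP mm A, F r ∈ IP mm A) : TR mm A →+ TR mm A :=
  QuotientAddGroup.map (IP mm A).toAddSubgroup (IP mm A).toAddSubgroup F hF

theorem tA_mk (F : MvPolynomial (Fin 3) A →+ MvPolynomial (Fin 3) A)
    (hF : ∀ r ∈ IP mm A, F r ∈ IP mm A) (x : MvPolynomial (Fin 3) A) :
    tA F hF (Ideal.Quotient.mk (IP mm A) x) = Ideal.Quotient.mk (IP mm A) (F x) := rfl

/-- ring maps descend -/
noncomputable def tR (F : MvPolynomial (Fin 3) A →+* MvPolynomial (Fin 3) A)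
    (hF : ∀ r ∈ IP mm A, F r ∈ IP mm A) : TR mm A →+* TR mm A :=
  Ideal.quotientMap (IP mm A) F hF

theorem tR_mk (F : MvPolynomial (Fin 3) A →+* MvPolynomial (Fin 3) A)
    (hF : ∀ r ∈ IP mm A, F r ∈ IP mm A) (x : MvPolynomial (Fin 3) A) :
    tR F hF (Ideal.Quotient.mk (IP mm A) x) = Ideal.Quotient.mk (IP mm A) (F x) := rfl

/-- the derivation as an additive map -/
noncomputable def pd (A : Type) [CommRing A] (i : Fin 3) :
    MvPolynomial (Fin 3) A →+ MvPolynomial (Fin 3) A where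
  toFun x := MvPolynomial.pderiv i x
  map_zero' := map_zero _
  map_add' := map_add _

theorem pd_apply (i : Fin 3) (x : MvPolynomial (Fin 3) A) :
    pd A i x = MvPolynomial.pderiv i x := rfl

theorem I5_pd (h5 : ((2 * mm + 1 : ℕ) : A) = 0) (i : Fin 3) :
    ∀ r ∈ IP mm A, pd A i r ∈ IP mm A := fun r hr => I5_pderiv h5 i r hr

/-- the structure -/
noncomputable def tRD [hp : Fact (2 * mm + 1).Prime] (h5 : ((2 * mm + 1 : ℕ) : A) = 0) (σ : A →+* A) :
    RD mm (TR mm A) where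
  σ := tR (sig0 σ) (fun r hr => I5_sig0 h5 σ r hr)
  da := tA (pd A 0) (I5_pd h5 0)
  db := tA (pd A 1) (I5_pd h5 1)
  dc := tA (pd A 2) (I5_pd h5 2)
  da_mul x y := by
    obtain ⟨x, rfl⟩ := Ideal.Quotient.mk_surjective x
    obtain ⟨y, rfl⟩ := Ideal.Quotient.mk_surjective y
    rw [← map_mul, tA_mk, tA_mk, tA_mk, ← map_mul, ← map_mul, ← map_add, pd_apply, pd_apply,
      pd_apply, MvPolynomial.pderiv_mul]
  db_mul x y := by
    obtain ⟨x, rfl⟩ := Ideal.Quotient.mk_surjective x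
    obtain ⟨y, rfl⟩ := Ideal.Quotient.mk_surjective y
    rw [← map_mul, tA_mk, tA_mk, tA_mk, ← map_mul, ← map_mul, ← map_add, pd_apply, pd_apply,
      pd_apply, MvPolynomial.pderiv_mul]
  dc_mul x y := by
    obtain ⟨x, rfl⟩ := Ideal.Quotient.mk_surjective x
    obtain ⟨y, rfl⟩ := Ideal.Quotient.mk_surjective y
    rw [← map_mul, tA_mk, tA_mk, tA_mk, ← map_mul, ← map_mul, ← map_add, pd_apply, pd_apply,
      pd_apply, MvPolynomial.pderiv_mul]
  a := Ideal.Quotient.mk (IP mm A) (MvPolynomial.X 0)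
  b := Ideal.Quotient.mk (IP mm A) (MvPolynomial.X 1)
  c := Ideal.Quotient.mk (IP mm A) (MvPolynomial.X 2)
  σa := by rw [tR_mk, sig0_X0]
  σb := by rw [tR_mk, sig0_X1, map_sub]
  σc := by
    rw [tR_mk, sig0_X2, map_sub, map_add, map_mul]
    rfl
  da_a := by
    rw [tA_mk, pd_apply, MvPolynomial.pderiv_X_self, map_one]
  da_b := by
    rw [tA_mk, pd_apply, MvPolynomial.pderiv_X_of_ne (by decide), map_zero]
  da_c := by
    rw [tA_mk, pd_apply, MvPolynomial.pderiv_X_of_ne (by decide), map_zero]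
  db_a := by
    rw [tA_mk, pd_apply, MvPolynomial.pderiv_X_of_ne (by decide), map_zero]
  db_b := by
    rw [tA_mk, pd_apply, MvPolynomial.pderiv_X_self, map_one]
  db_c := by
    rw [tA_mk, pd_apply, MvPolynomial.pderiv_X_of_ne (by decide), map_zero]
  dc_a := by
    rw [tA_mk, pd_apply, MvPolynomial.pderiv_X_of_ne (by decide), map_zero]
  dc_b := by
    rw [tA_mk, pd_apply, MvPolynomial.pderiv_X_of_ne (by decide), map_zero]
  dc_c := by
    rw [tA_mk, pd_apply, MvPolynomial.pderiv_X_self, map_one]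
  da_σ r := by
    obtain ⟨r, rfl⟩ := Ideal.Quotient.mk_surjective r
    rw [tR_mk, tA_mk, tA_mk, tA_mk, tA_mk, tR_mk, tR_mk, tR_mk, pd_apply, pd_apply, pd_apply,
      pd_apply, chain0_a, map_sub, map_sub]
  db_σ r := by
    obtain ⟨r, rfl⟩ := Ideal.Quotient.mk_surjective r
    rw [tR_mk, tA_mk, tA_mk, tA_mk, tR_mk, tR_mk, pd_apply, pd_apply, pd_apply,
      chain0_b, map_add, map_mul]
    rfl
  dc_σ r := by
    obtain ⟨r, rfl⟩ := Ideal.Quotient.mk_surjective r
    rw [tR_mk, tA_mk, tA_mk, tR_mk, pd_apply, pd_apply, chain0_c]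
  char := by
    have h : ((2 * mm + 1 : ℕ) : TR mm A) =
        ((Ideal.Quotient.mk (IP mm A)).comp MvPolynomial.C) ((2 * mm + 1 : ℕ) : A) :=
      (map_natCast _ _).symm
    rw [h, h5, map_zero]

end trunc

theorem exists_trunc {mm : ℕ} [hp : Fact (2 * mm + 1).Prime] {A : Type} [CommRing A] [Finite A]
    (h5 : ((2 * mm + 1 : ℕ) : A) = 0) (σA : A →+* A) :
    ∃ (R : Type) (_ : CommRing R) (_ : Finite R) (d : RD mm R) (ι : A →+* R) (ε : R →+* A)
      (Ψ : (A →+* A) → (R →+* R)),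
      (∀ f g, Ψ (f.comp g) = (Ψ f).comp (Ψ g)) ∧ Ψ (RingHom.id A) = RingHom.id R ∧
      (∀ x, ε (ι x) = x) ∧ (∀ x, ε (d.σ x) = σA (ε x)) ∧ (∀ x, d.σ (ι x) = ι (σA x)) ∧
      (∀ f x, Ψ f (ι x) = ι (f x)) ∧
      (∀ f : A →+* A, (∀ x, f (σA x) = σA (f x)) → ∀ x, Ψ f (d.σ x) = d.σ (Ψ f x)) ∧
      (∀ f, Ψ f d.a = d.a) ∧ (∀ f, Ψ f d.b = d.b) ∧ (∀ f, Ψ f d.c = d.c) ∧
      (∀ f : A →+* A, (∀ x y, (x - f x) * (y - f y) = 0) →
        ∀ x y, (x - Ψ f x) * (y - Ψ f y) = 0) := by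
  refine ⟨TR mm A, inferInstance, I5_finite, tRD h5 σA,
    (Ideal.Quotient.mk (IP mm A)).comp MvPolynomial.C,
    Ideal.Quotient.lift (IP mm A) MvPolynomial.constantCoeff (fun r hr => I5_const r hr),
    fun f => tR (MvPolynomial.map f) (fun r hr => I5_map f r hr),
    ?_, ?_, ?_, ?_, ?_, ?_, ?_, ?_, ?_, ?_, ?_⟩
  · intro f g
    ext x
    · simp [tR_mk]
    · simp [tR_mk]
  · ext x
    · simp [tR_mk]
    · simp [tR_mk]
  · intro x
    simp
  · intro x
    obtain ⟨x, rfl⟩ := Ideal.Quotient.mk_surjective x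
    show Ideal.Quotient.lift (IP mm A) MvPolynomial.constantCoeff _
      (Ideal.Quotient.mk (IP mm A) (sig0 σA x)) = _
    rw [Ideal.Quotient.lift_mk, Ideal.Quotient.lift_mk, sig0_const]
  · intro x
    show Ideal.Quotient.mk (IP mm A) (sig0 σA (MvPolynomial.C x)) = _
    rw [sig0_C]
    rfl
  · intro f x
    show Ideal.Quotient.mk (IP mm A) (MvPolynomial.map f (MvPolynomial.C x)) = _
    rw [MvPolynomial.map_C]
    rfl
  · intro f hf x
    obtain ⟨x, rfl⟩ := Ideal.Quotient.mk_surjective x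
    show Ideal.Quotient.mk (IP mm A) (MvPolynomial.map f (sig0 σA x)) =
      Ideal.Quotient.mk (IP mm A) (sig0 σA (MvPolynomial.map f x))
    rw [sig0_map σA f hf]
  · intro f
    show Ideal.Quotient.mk (IP mm A) (MvPolynomial.map f (MvPolynomial.X 0)) =
      Ideal.Quotient.mk (IP mm A) (MvPolynomial.X 0)
    rw [MvPolynomial.map_X]
  · intro f
    show Ideal.Quotient.mk (IP mm A) (MvPolynomial.map f (MvPolynomial.X 1)) =
      Ideal.Quotient.mk (IP mm A) (MvPolynomial.X 1)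
    rw [MvPolynomial.map_X]
  · intro f
    show Ideal.Quotient.mk (IP mm A) (MvPolynomial.map f (MvPolynomial.X 2)) =
      Ideal.Quotient.mk (IP mm A) (MvPolynomial.X 2)
    rw [MvPolynomial.map_X]
  · intro f hf x y
    obtain ⟨x, rfl⟩ := Ideal.Quotient.mk_surjective x
    obtain ⟨y, rfl⟩ := Ideal.Quotient.mk_surjective y
    rw [tR_mk, tR_mk, ← map_sub, ← map_sub, ← map_mul, map_sq f hf, map_zero]


theorem truncMain_map {A R : Type} [CommRing A] [CommRing R] (σ : A →+* A) (τ : R →+* R)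
    (ι : A →+* R) (h : ∀ x, τ (ι x) = ι (σ x)) (m : M2 A) :
    tau τ (m.map ι) = (tau σ m).map ι := by
  ext i j
  fin_cases i <;> fin_cases j
  · change tau τ (m.map ι) 0 0 = ι (tau σ m 0 0)
    rw [tau_00, tau_00, Matrix.map_apply, Matrix.map_apply, h, h, map_add]
  · change tau τ (m.map ι) 0 1 = ι (tau σ m 0 1)
    rw [tau_01, tau_01, Matrix.map_apply, Matrix.map_apply, Matrix.map_apply, Matrix.map_apply,
      h, h, h, h, map_sub, map_sub, map_add]
  · change tau τ (m.map ι) 1 0 = ι (tau σ m 1 0)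
    rw [tau_10, tau_10, Matrix.map_apply, h]
  · change tau τ (m.map ι) 1 1 = ι (tau σ m 1 1)
    rw [tau_11, tau_11, Matrix.map_apply, Matrix.map_apply, h, h, map_sub]

theorem truncMain {n : ℕ} [hp : Fact (2 * (n + 1) + 1).Prime] {A S L : Type} [CommRing A] [Finite A]
    [Finite S] [Group L] (h5 : ((2 * (n + 1) + 1 : ℕ) : A) = 0) (σ : A →+* A)
    (π : S → A →+* A) (hπσ : ∀ s x, π s (σ x) = σ (π s x))
    (hπ : ∀ s x y, (x - π s x) * (y - π s y) = 0)
    (πt : A →+* A) (hπt : πt ∈ Submonoid.closure (Set.range π))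
    (j : L →* M2 A) (hjτ : ∀ l, tau σ (j l) = j l) (hjπ : ∀ l, (j l).map πt = 1)
    (k : ℕ) (l : L) (hl : l ∈ derivedSeries L k) (hjl : j l - 1 ∉ JJ σ) : Good (n + 1) k := by
  obtain ⟨R, iR, fR, d, ι, ε, Ψ, hΨc, hΨi, hει, hεσ, hσι, hΨι, hΨσ, hΨa, hΨb, hΨc', hΨq⟩ :=
    exists_trunc h5 σ
  have hcl : Ψ πt ∈ Submonoid.closure (Set.range fun s => Ψ (π s)) := by
    clear hjπ
    induction hπt using Submonoid.closure_induction with
    | mem x hx =>
      obtain ⟨s, rfl⟩ := hx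
      exact Submonoid.subset_closure ⟨s, rfl⟩
    | one =>
      have : Ψ 1 = 1 := hΨi
      rw [this]
      exact Submonoid.one_mem _
    | mul x y _ _ hx hy =>
      have : Ψ (x * y) = Ψ x * Ψ y := hΨc x y
      rw [this]
      exact Submonoid.mul_mem _ hx hy
  refine ringMain d (fun s => Ψ (π s)) (fun s x => hΨσ (π s) (hπσ s) x) (fun s => hΨa _)
    (fun s => hΨb _) (fun s => hΨc' _) (fun s x y => hΨq (π s) (hπ s) x y) (Ψ πt) hcl
    (((ι.mapMatrix : M2 A →+* M2 R) : M2 A →* M2 R).comp j) ?_ ?_ k l hl ?_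
  · intro l
    change tau d.σ ((j l).map ι) = (j l).map ι
    rw [truncMain_map σ d.σ ι hσι, hjτ]
  · intro l
    change ((j l).map ι).map (Ψ πt) = 1
    have h1 : ((j l).map ι).map (Ψ πt) = ((j l).map πt).map ι := by
      ext a b
      rw [Matrix.map_apply, Matrix.map_apply, Matrix.map_apply, Matrix.map_apply, hΨι]
    rw [h1, hjπ]
    exact Matrix.map_one ι (map_zero ι) (map_one ι)
  · rintro ⟨n, hn⟩
    have hn' : (j l).map ι - 1 = tau d.σ n - n := hn
    apply hjl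
    refine ⟨n.map ε, ?_⟩
    rw [truncMain_map d.σ σ ε (fun x => (hεσ x).symm)]
    ext a b
    have h2 := congrArg (fun M : M2 R => ε (M a b)) hn'
    simp only [Matrix.sub_apply, Matrix.map_apply, map_sub, hει] at h2
    rw [Matrix.sub_apply, Matrix.sub_apply, Matrix.map_apply, Matrix.map_apply, ← h2]
    congr 1
    rw [Matrix.one_apply, Matrix.one_apply]
    split_ifs
    · rw [map_one]
    · rw [map_zero]


end Pool.Agent.H75Kh
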