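import Pool.Agent.H75Kh.K4

set_option autoImplicit false

namespace Pool.Agent.H75Kh

open Matrix Pool.Agent.Helper904.Kh

variable {mm : ℕ}

/-- the tensor Ω: half of H, E21, E12, minus half of H -/
def Om (mm : ℕ) : Fin 2 → Fin 2 → M2 (ZMod (2 * mm + 1)) :=
  ![![!![hf mm (ZMod (2 * mm + 1)), 0; 0, -hf mm (ZMod (2 * mm + 1))], !![0, 0; 1, 0]],
    ![!![0, 1; 0, 0], !![-hf mm (ZMod (2 * mm + 1)), 0; 0, hf mm (ZMod (2 * mm + 1))]]]

theorem hfz (mm : ℕ) : 2 * hf mm (ZMod (2 * mm + 1)) = 1 := hf_two (ZMod.natCast_self _)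

/-- entries of the conjugate by `u` -/
theorem conj_entries {R : Type} [CommRing R] (X : M2 R) :
    (uM R * X * vM R) 0 0 = X 0 0 + X 1 0 ∧
    (uM R * X * vM R) 0 1 = X 0 1 + X 1 1 - X 0 0 - X 1 0 ∧
    (uM R * X * vM R) 1 0 = X 1 0 ∧
    (uM R * X * vM R) 1 1 = X 1 1 - X 1 0 := by
  refine ⟨?_, ?_, ?_, ?_⟩ <;>
  · simp only [uM, vM, Matrix.mul_apply, Fin.sum_univ_two, Matrix.of_apply, Matrix.cons_val',
      Matrix.cons_val_zero, Matrix.cons_val_one, Matrix.cons_val_fin_one]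
    ring

theorem conj_mul {R : Type} [CommRing R] (X Y : M2 R) :
    uM R * X * vM R * (uM R * Y * vM R) = uM R * (X * Y) * vM R := by
  calc uM R * X * vM R * (uM R * Y * vM R) = uM R * X * (vM R * uM R) * Y * vM R := by
        simp only [mul_assoc]
    _ = _ := by rw [vu, mul_one]; simp only [mul_assoc]

theorem conj_comm {R : Type} [CommRing R] (X Y : M2 R) (r : R) :
    r • (uM R * X * vM R * (uM R * Y * vM R) - uM R * Y * vM R * (uM R * X * vM R)) =
      uM R * (r • (X * Y - Y * X)) * vM R := by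
  rw [conj_mul, conj_mul, mul_smul_comm, smul_mul_assoc, mul_sub, sub_mul]

theorem v3 {R : Type} {a b c a' b' c' : R} (h1 : a = a') (h2 : b = b') (h3 : c = c') :
    (![a, b, c] : Fin 3 → R) = ![a', b', c'] := by
  rw [h1, h2, h3]

theorem v3add {R : Type} [CommRing R] (a b c a' b' c' : R) :
    (![a, b, c] + ![a', b', c'] : Fin 3 → R) = ![a + a', b + b', c + c'] := by
  funext i; fin_cases i <;> rfl

theorem v3sub {R : Type} [CommRing R] (a b c a' b' c' : R) :
    (![a, b, c] - ![a', b', c'] : Fin 3 → R) = ![a - a', b - b', c - c'] := by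
  funext i; fin_cases i <;> rfl

/-- data on the coefficient algebra -/
structure TD (mm : ℕ) (A : Type) [CommRing A] [Algebra (ZMod (2 * mm + 1)) A] where
  σ : A →ₐ[ZMod (2 * mm + 1)] A
  S : Type
  finS : Finite S
  π : S → (A →ₐ[ZMod (2 * mm + 1)] A)
  πt : A →ₐ[ZMod (2 * mm + 1)] A
  w : M2 A
  ρ : A →ₗ[ZMod (2 * mm + 1)] M2 (ZMod (2 * mm + 1))
  comm : ∀ s x, π s (σ x) = σ (π s x)
  sq : ∀ s x y, (x - π s x) * (y - π s y) = 0
  clos : πt ∈ Submonoid.closure (Set.range π)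
  τw : tau (σ : A →+* A) w = w
  ww : ∀ i j k l, w i j * w k l = 0
  πw : ∀ i j, πt (w i j) = 0
  ρσ : ∀ x, ρ (σ x) = uM (ZMod (2 * mm + 1)) * ρ x * vM (ZMod (2 * mm + 1))
  ρw : ∀ i j, ρ (w i j) = Om mm i j

/-- the unitary type group of the data -/
def UG {A : Type} [CommRing A] [Algebra (ZMod (2 * mm + 1)) A] (T : TD mm A) : Subgroup (M2 A)ˣ where
  carrier := {g | tau (T.σ : A →+* A) (g : M2 A) = g ∧ (T.πt : A →+* A).mapMatrix (g : M2 A) = 1}
  one_mem' := by
    constructor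
    · rw [Units.val_one, map_one]
    · rw [Units.val_one, map_one]
  mul_mem' := by
    rintro g h ⟨h1, h2⟩ ⟨h3, h4⟩
    constructor
    · rw [Units.val_mul, map_mul, h1, h3]
    · rw [Units.val_mul, map_mul, h2, h4, mul_one]
  inv_mem' := by
    rintro g ⟨h1, h2⟩
    constructor
    · have h : (g : M2 A) * tau (T.σ : A →+* A) ((g⁻¹ : (M2 A)ˣ) : M2 A) = 1 := by
        nth_rewrite 1 [← h1]
        rw [← map_mul, Units.mul_inv, map_one]
      calc tau (T.σ : A →+* A) ((g⁻¹ : (M2 A)ˣ) : M2 A)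
          = ((g⁻¹ : (M2 A)ˣ) : M2 A) * ((g : M2 A) * tau (T.σ : A →+* A) ((g⁻¹ : (M2 A)ˣ) : M2 A)) := by
            rw [← mul_assoc, Units.inv_mul, one_mul]
        _ = _ := by rw [h, mul_one]
    · have h : (T.πt : A →+* A).mapMatrix ((g : M2 A) * ((g⁻¹ : (M2 A)ˣ) : M2 A)) = 1 := by
        rw [Units.mul_inv, map_one]
      rw [map_mul, h2, one_mul] at h
      exact h



/-- the linear map on the nilpotent part -/
def btdF (mm : ℕ) : (Fin 3 → ZMod (2 * mm + 1)) →ₗ[ZMod (2 * mm + 1)] (Fin 3 → ZMod (2 * mm + 1)) where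
  toFun v := ![v 0 - v 1 - v 2, v 1 + 2 * v 2, v 2]
  map_add' v v' := by
    funext i
    fin_cases i
    · show (v 0 + v' 0) - (v 1 + v' 1) - (v 2 + v' 2) = (v 0 - v 1 - v 2) + (v' 0 - v' 1 - v' 2)
      ring
    · show (v 1 + v' 1) + 2 * (v 2 + v' 2) = (v 1 + 2 * v 2) + (v' 1 + 2 * v' 2)
      ring
    · rfl
  map_smul' r v := by
    funext i
    fin_cases i
    · show (r * v 0) - (r * v 1) - (r * v 2) = r * (v 0 - v 1 - v 2)
      ring
    · show (r * v 1) + 2 * (r * v 2) = r * (v 1 + 2 * v 2)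
      ring
    · rfl

/-- the map to the matrices -/
def btdR (mm : ℕ) : TrivSqZeroExt (ZMod (2 * mm + 1)) (Fin 3 → ZMod (2 * mm + 1)) →ₗ[ZMod (2 * mm + 1)] M2 (ZMod (2 * mm + 1)) where
  toFun x := !![hf mm (ZMod (2 * mm + 1)) * x.snd 1, x.snd 0; x.snd 2, -(hf mm (ZMod (2 * mm + 1)) * x.snd 1)]
  map_add' x y := by
    ext i j
    fin_cases i <;> fin_cases j
    · show hf mm (ZMod (2 * mm + 1)) * (x.snd 1 + y.snd 1) = hf mm (ZMod (2 * mm + 1)) * x.snd 1 + hf mm (ZMod (2 * mm + 1)) * y.snd 1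
      ring
    · rfl
    · rfl
    · show -(hf mm (ZMod (2 * mm + 1)) * (x.snd 1 + y.snd 1)) = -(hf mm (ZMod (2 * mm + 1)) * x.snd 1) + -(hf mm (ZMod (2 * mm + 1)) * y.snd 1)
      ring
  map_smul' r x := by
    ext i j
    fin_cases i <;> fin_cases j
    · show hf mm (ZMod (2 * mm + 1)) * (r * x.snd 1) = r * (hf mm (ZMod (2 * mm + 1)) * x.snd 1)
      ring
    · rfl
    · rfl
    · show -(hf mm (ZMod (2 * mm + 1)) * (r * x.snd 1)) = r * (-(hf mm (ZMod (2 * mm + 1)) * x.snd 1))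
      ring

/-- the tensor -/
def btdW (mm : ℕ) : M2 (TrivSqZeroExt (ZMod (2 * mm + 1)) (Fin 3 → ZMod (2 * mm + 1))) :=
  !![TrivSqZeroExt.inr ![0, 1, 0], TrivSqZeroExt.inr ![0, 0, 1];
    TrivSqZeroExt.inr ![1, 0, 0], TrivSqZeroExt.inr ![0, -1, 0]]

theorem btdW_inr (i j : Fin 2) : ∃ v, btdW mm i j = TrivSqZeroExt.inr v := by
  fin_cases i <;> fin_cases j
  · exact ⟨![0, 1, 0], rfl⟩
  · exact ⟨![0, 0, 1], rfl⟩
  · exact ⟨![1, 0, 0], rfl⟩
  · exact ⟨![0, -1, 0], rfl⟩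

/-- the automorphism as an algebra map -/
def btdS (mm : ℕ) : TrivSqZeroExt (ZMod (2 * mm + 1)) (Fin 3 → ZMod (2 * mm + 1)) →ₐ[ZMod (2 * mm + 1)]
    TrivSqZeroExt (ZMod (2 * mm + 1)) (Fin 3 → ZMod (2 * mm + 1)) := TrivSqZeroExt.map (btdF mm)

/-- the automorphism as a ring map -/
def btdS' (mm : ℕ) : TrivSqZeroExt (ZMod (2 * mm + 1)) (Fin 3 → ZMod (2 * mm + 1)) →+*
    TrivSqZeroExt (ZMod (2 * mm + 1)) (Fin 3 → ZMod (2 * mm + 1)) := (btdS mm : _ →+* _)

theorem btd_map_inr (v : Fin 3 → ZMod (2 * mm + 1)) :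
    (btdS' mm) (TrivSqZeroExt.inr v) = TrivSqZeroExt.inr (btdF mm v) := TrivSqZeroExt.map_inr (btdF mm) v

theorem btd_tau : tau (btdS' mm) (btdW mm) = btdW mm := by
  have e00 : btdW mm 0 0 = TrivSqZeroExt.inr ![0, 1, 0] := rfl
  have e01 : btdW mm 0 1 = TrivSqZeroExt.inr ![0, 0, 1] := rfl
  have e10 : btdW mm 1 0 = TrivSqZeroExt.inr ![1, 0, 0] := rfl
  have e11 : btdW mm 1 1 = TrivSqZeroExt.inr ![0, -1, 0] := rfl
  have h0 : btdF mm ![0, 1, 0] = ![-1, 1, 0] := by
    show (![(0 : ZMod (2 * mm + 1)) - 1 - 0, 1 + 2 * 0, 0] : Fin 3 → ZMod (2 * mm + 1)) = ![-1, 1, 0]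
    exact v3 (by ring) (by ring) (by ring)
  have h1 : btdF mm ![0, 0, 1] = ![-1, 2, 1] := by
    show (![(0 : ZMod (2 * mm + 1)) - 0 - 1, 0 + 2 * 1, 1] : Fin 3 → ZMod (2 * mm + 1)) = ![-1, 2, 1]
    exact v3 (by ring) (by ring) (by ring)
  have h2 : btdF mm ![1, 0, 0] = ![1, 0, 0] := by
    show (![(1 : ZMod (2 * mm + 1)) - 0 - 0, 0 + 2 * 0, 0] : Fin 3 → ZMod (2 * mm + 1)) = ![1, 0, 0]
    exact v3 (by ring) (by ring) (by ring)
  have h3 : btdF mm ![0, -1, 0] = ![1, -1, 0] := by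
    show (![(0 : ZMod (2 * mm + 1)) - (-1) - 0, -1 + 2 * 0, 0] : Fin 3 → ZMod (2 * mm + 1)) = ![1, -1, 0]
    exact v3 (by ring) (by ring) (by ring)
  ext1 i j
  fin_cases i <;> fin_cases j
  · show tau _ (btdW mm) 0 0 = btdW mm 0 0
    rw [tau_00, e00, e10, btd_map_inr, btd_map_inr, h0, h2, ← TrivSqZeroExt.inr_add]
    congr 1
    simp only [v3add, v3sub]
    exact v3 (by ring) (by ring) (by ring)
  · show tau _ (btdW mm) 0 1 = btdW mm 0 1
    rw [tau_01, e00, e01, e10, e11, btd_map_inr, btd_map_inr, btd_map_inr, btd_map_inr, h0, h1, h2,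
      h3, ← TrivSqZeroExt.inr_add, ← TrivSqZeroExt.inr_sub, ← TrivSqZeroExt.inr_sub]
    congr 1
    simp only [v3add, v3sub]
    exact v3 (by ring) (by ring) (by ring)
  · show tau _ (btdW mm) 1 0 = btdW mm 1 0
    rw [tau_10, e10, btd_map_inr, h2]
  · show tau _ (btdW mm) 1 1 = btdW mm 1 1
    rw [tau_11, e10, e11, btd_map_inr, btd_map_inr, h2, h3, ← TrivSqZeroExt.inr_sub]
    congr 1
    simp only [v3add, v3sub]
    exact v3 (by ring) (by ring) (by ring)

theorem btd_rho (x : TrivSqZeroExt (ZMod (2 * mm + 1)) (Fin 3 → ZMod (2 * mm + 1))) :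
    btdR mm (TrivSqZeroExt.map (btdF mm) x) = uM (ZMod (2 * mm + 1)) * btdR mm x * vM (ZMod (2 * mm + 1)) := by
  obtain ⟨a, ha⟩ : ∃ a, a = x.snd 0 := ⟨_, rfl⟩
  obtain ⟨b, hb⟩ : ∃ b, b = x.snd 1 := ⟨_, rfl⟩
  obtain ⟨c, hc⟩ : ∃ c, c = x.snd 2 := ⟨_, rfl⟩
  have e1 : btdR mm x = !![hf mm (ZMod (2 * mm + 1)) * b, a; c, -(hf mm (ZMod (2 * mm + 1)) * b)] := by
    rw [ha, hb, hc]
    rfl
  have e2 : btdR mm (TrivSqZeroExt.map (btdF mm) x) =
      !![hf mm (ZMod (2 * mm + 1)) * (b + 2 * c), a - b - c; c,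
        -(hf mm (ZMod (2 * mm + 1)) * (b + 2 * c))] := by
    have h : (TrivSqZeroExt.map (btdF mm) x).snd = btdF mm x.snd :=
      TrivSqZeroExt.snd_map (btdF mm) x
    show !![hf mm (ZMod (2 * mm + 1)) * (TrivSqZeroExt.map (btdF mm) x).snd 1,
      (TrivSqZeroExt.map (btdF mm) x).snd 0;
      (TrivSqZeroExt.map (btdF mm) x).snd 2,
      -(hf mm (ZMod (2 * mm + 1)) * (TrivSqZeroExt.map (btdF mm) x).snd 1)] = _
    rw [h, ha, hb, hc]
    rfl
  rw [e1, e2]
  clear e1 e2 ha hb hc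
  have hh := hfz mm
  obtain ⟨c1, c2, c3, c4⟩ := conj_entries
    (!![hf mm (ZMod (2 * mm + 1)) * b, a; c, -(hf mm (ZMod (2 * mm + 1)) * b)] :
      M2 (ZMod (2 * mm + 1)))
  generalize hf mm (ZMod (2 * mm + 1)) = h at *
  have g1 : (!![h * b, a; c, -(h * b)] : M2 (ZMod (2 * mm + 1))) 0 0 = h * b := rfl
  have g2 : (!![h * b, a; c, -(h * b)] : M2 (ZMod (2 * mm + 1))) 0 1 = a := rfl
  have g3 : (!![h * b, a; c, -(h * b)] : M2 (ZMod (2 * mm + 1))) 1 0 = c := rfl
  have g4 : (!![h * b, a; c, -(h * b)] : M2 (ZMod (2 * mm + 1))) 1 1 = -(h * b) := rfl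
  rw [g1, g3] at c1
  rw [g1, g2, g3, g4] at c2
  rw [g3] at c3
  rw [g3, g4] at c4
  ext i j
  fin_cases i <;> fin_cases j
  · show h * (b + 2 * c) = (uM (ZMod (2 * mm + 1)) * !![h * b, a; c, -(h * b)] * vM (ZMod (2 * mm + 1)) :
      M2 (ZMod (2 * mm + 1))) 0 0
    rw [c1]
    linear_combination c * hh
  · show a - b - c = (uM (ZMod (2 * mm + 1)) * !![h * b, a; c, -(h * b)] * vM (ZMod (2 * mm + 1)) :
      M2 (ZMod (2 * mm + 1))) 0 1
    rw [c2]
    linear_combination b * hh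
  · show c = (uM (ZMod (2 * mm + 1)) * !![h * b, a; c, -(h * b)] * vM (ZMod (2 * mm + 1)) :
      M2 (ZMod (2 * mm + 1))) 1 0
    rw [c3]
  · show -(h * (b + 2 * c)) = (uM (ZMod (2 * mm + 1)) * !![h * b, a; c, -(h * b)] * vM (ZMod (2 * mm + 1)) :
      M2 (ZMod (2 * mm + 1))) 1 1
    rw [c4]
    linear_combination (-c) * hh

theorem baseTD (mm : ℕ) : ∃ (A : Type) (_ : CommRing A) (_ : Algebra (ZMod (2 * mm + 1)) A) (_ : Finite A),
    Nonempty (TD mm A) := by
  refine ⟨TrivSqZeroExt (ZMod (2 * mm + 1)) (Fin 3 → ZMod (2 * mm + 1)), inferInstance, inferInstance,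
    inferInstanceAs (Finite (ZMod (2 * mm + 1) × (Fin 3 → ZMod (2 * mm + 1)))), ⟨?_⟩⟩
  exact
  { σ := TrivSqZeroExt.map (btdF mm)
    S := Unit
    finS := inferInstance
    π := fun _ => TrivSqZeroExt.map 0
    πt := TrivSqZeroExt.map 0
    w := btdW mm
    ρ := btdR mm
    comm := by
      intro s x
      refine TrivSqZeroExt.ext ?_ ?_
      · rw [TrivSqZeroExt.fst_map, TrivSqZeroExt.fst_map, TrivSqZeroExt.fst_map,
          TrivSqZeroExt.fst_map]
      · rw [TrivSqZeroExt.snd_map, TrivSqZeroExt.snd_map, TrivSqZeroExt.snd_map,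
          LinearMap.zero_apply, TrivSqZeroExt.snd_map, LinearMap.zero_apply, map_zero]
    sq := by
      intro s x y
      have h : ∀ x : TrivSqZeroExt (ZMod (2 * mm + 1)) (Fin 3 → ZMod (2 * mm + 1)),
          x - TrivSqZeroExt.map (0 : (Fin 3 → ZMod (2 * mm + 1)) →ₗ[ZMod (2 * mm + 1)] (Fin 3 → ZMod (2 * mm + 1))) x =
            TrivSqZeroExt.inr x.snd := by
        intro x
        refine TrivSqZeroExt.ext ?_ ?_
        · rw [TrivSqZeroExt.fst_sub, TrivSqZeroExt.fst_map, sub_self, TrivSqZeroExt.fst_inr]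
        · rw [TrivSqZeroExt.snd_sub, TrivSqZeroExt.snd_map, LinearMap.zero_apply, sub_zero,
            TrivSqZeroExt.snd_inr]
      rw [h, h, TrivSqZeroExt.inr_mul_inr]
    clos := Submonoid.subset_closure (Set.mem_range_self ())
    τw := btd_tau
    ww := by
      intro i j k l
      obtain ⟨v, hv⟩ := btdW_inr i j
      obtain ⟨v', hv'⟩ := btdW_inr k l
      rw [hv, hv', TrivSqZeroExt.inr_mul_inr]
    πw := by
      intro i j
      obtain ⟨v, hv⟩ := btdW_inr i j
      rw [hv, TrivSqZeroExt.map_inr, LinearMap.zero_apply, TrivSqZeroExt.inr_zero]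
    ρσ := btd_rho
    ρw := by
      intro i j
      fin_cases i <;> fin_cases j
      · show (!![hf mm (ZMod (2 * mm + 1)) * 1, 0; 0, -(hf mm (ZMod (2 * mm + 1)) * 1)] : M2 (ZMod (2 * mm + 1))) = !![hf mm (ZMod (2 * mm + 1)), 0; 0, -hf mm (ZMod (2 * mm + 1))]
        rw [mul_one]
      · show (!![hf mm (ZMod (2 * mm + 1)) * 0, 0; 1, -(hf mm (ZMod (2 * mm + 1)) * 0)] : M2 (ZMod (2 * mm + 1))) = !![0, 0; 1, 0]
        rw [mul_zero, neg_zero]
      · show (!![hf mm (ZMod (2 * mm + 1)) * 0, 1; 0, -(hf mm (ZMod (2 * mm + 1)) * 0)] : M2 (ZMod (2 * mm + 1))) = !![0, 1; 0, 0]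
        rw [mul_zero, neg_zero]
      · show (!![hf mm (ZMod (2 * mm + 1)) * (-1), 0; 0, -(hf mm (ZMod (2 * mm + 1)) * (-1))] : M2 (ZMod (2 * mm + 1))) = !![-hf mm (ZMod (2 * mm + 1)), 0; 0, hf mm (ZMod (2 * mm + 1))]
        rw [mul_neg, mul_one, neg_neg] }




theorem tensorTD_tau_map {R R' : Type} [CommRing R] [CommRing R'] (σ : R →+* R) (σ' : R' →+* R')
    (φ : R →+* R') (h : ∀ a, σ' (φ a) = φ (σ a)) (m : M2 R) :
    tau σ' (m.map φ) = (tau σ m).map φ := by
  ext i j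
  fin_cases i <;> fin_cases j
  · show tau σ' (m.map φ) 0 0 = φ (tau σ m 0 0)
    rw [tau_00, tau_00]; simp [h]
  · show tau σ' (m.map φ) 0 1 = φ (tau σ m 0 1)
    rw [tau_01, tau_01]; simp [h]
  · show tau σ' (m.map φ) 1 0 = φ (tau σ m 1 0)
    rw [tau_10, tau_10]; simp [h]
  · show tau σ' (m.map φ) 1 1 = φ (tau σ m 1 1)
    rw [tau_11, tau_11]; simp [h]

open scoped TensorProduct in
theorem tensorTD_clos {A : Type} [CommRing A] [Algebra (ZMod (2 * mm + 1)) A] {S : Type}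
    (π : S → (A →ₐ[ZMod (2 * mm + 1)] A)) (πt : A →ₐ[ZMod (2 * mm + 1)] A) (hc : πt ∈ Submonoid.closure (Set.range π)) :
    Algebra.TensorProduct.map πt πt ∈ Submonoid.closure (Set.range
      (Sum.elim (fun s => Algebra.TensorProduct.map (π s) (AlgHom.id (ZMod (2 * mm + 1)) A))
        (fun s => Algebra.TensorProduct.map (AlgHom.id (ZMod (2 * mm + 1)) A) (π s)) :
        S ⊕ S → ((A ⊗[ZMod (2 * mm + 1)] A) →ₐ[ZMod (2 * mm + 1)] (A ⊗[ZMod (2 * mm + 1)] A)))) := by
  set C := Submonoid.closure (Set.range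
      (Sum.elim (fun s => Algebra.TensorProduct.map (π s) (AlgHom.id (ZMod (2 * mm + 1)) A))
        (fun s => Algebra.TensorProduct.map (AlgHom.id (ZMod (2 * mm + 1)) A) (π s)) :
        S ⊕ S → ((A ⊗[ZMod (2 * mm + 1)] A) →ₐ[ZMod (2 * mm + 1)] (A ⊗[ZMod (2 * mm + 1)] A)))) with hC
  have h1 : ∀ f ∈ Submonoid.closure (Set.range π),
      Algebra.TensorProduct.map f (AlgHom.id (ZMod (2 * mm + 1)) A) ∈ C := by
    intro f hf
    induction hf using Submonoid.closure_induction with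
    | mem x hx =>
      obtain ⟨s, rfl⟩ := hx
      exact Submonoid.subset_closure ⟨Sum.inl s, rfl⟩
    | one =>
      have : Algebra.TensorProduct.map (1 : A →ₐ[ZMod (2 * mm + 1)] A) (AlgHom.id (ZMod (2 * mm + 1)) A) = 1 := by
        apply AlgHom.ext
        intro x
        induction x using TensorProduct.induction_on with
        | zero => simp
        | tmul a b => simp
        | add a b ha hb => rw [map_add, map_add, ha, hb]
      rw [this]
      exact C.one_mem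
    | mul f g _ _ hf hg =>
      have : Algebra.TensorProduct.map (f * g) (AlgHom.id (ZMod (2 * mm + 1)) A)
          = Algebra.TensorProduct.map f (AlgHom.id (ZMod (2 * mm + 1)) A) *
            Algebra.TensorProduct.map g (AlgHom.id (ZMod (2 * mm + 1)) A) := by
        apply AlgHom.ext
        intro x
        induction x using TensorProduct.induction_on with
        | zero => simp
        | tmul a b => simp [AlgHom.mul_apply]
        | add a b ha hb => rw [map_add, map_add, ha, hb]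
      rw [this]
      exact C.mul_mem hf hg
  have h2 : ∀ f ∈ Submonoid.closure (Set.range π),
      Algebra.TensorProduct.map (AlgHom.id (ZMod (2 * mm + 1)) A) f ∈ C := by
    intro f hf
    induction hf using Submonoid.closure_induction with
    | mem x hx =>
      obtain ⟨s, rfl⟩ := hx
      exact Submonoid.subset_closure ⟨Sum.inr s, rfl⟩
    | one =>
      have : Algebra.TensorProduct.map (AlgHom.id (ZMod (2 * mm + 1)) A) (1 : A →ₐ[ZMod (2 * mm + 1)] A) = 1 := by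
        apply AlgHom.ext
        intro x
        induction x using TensorProduct.induction_on with
        | zero => simp
        | tmul a b => simp
        | add a b ha hb => rw [map_add, map_add, ha, hb]
      rw [this]
      exact C.one_mem
    | mul f g _ _ hf hg =>
      have : Algebra.TensorProduct.map (AlgHom.id (ZMod (2 * mm + 1)) A) (f * g)
          = Algebra.TensorProduct.map (AlgHom.id (ZMod (2 * mm + 1)) A) f *
            Algebra.TensorProduct.map (AlgHom.id (ZMod (2 * mm + 1)) A) g := by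
        apply AlgHom.ext
        intro x
        induction x using TensorProduct.induction_on with
        | zero => simp
        | tmul a b => simp [AlgHom.mul_apply]
        | add a b ha hb => rw [map_add, map_add, ha, hb]
      rw [this]
      exact C.mul_mem hf hg
  have h3 : Algebra.TensorProduct.map πt πt
      = Algebra.TensorProduct.map πt (AlgHom.id (ZMod (2 * mm + 1)) A) *
        Algebra.TensorProduct.map (AlgHom.id (ZMod (2 * mm + 1)) A) πt := by
    apply AlgHom.ext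
    intro x
    induction x using TensorProduct.induction_on with
    | zero => simp
    | tmul a b => simp [AlgHom.mul_apply]
    | add a b ha hb => rw [map_add, map_add, ha, hb]
  rw [h3]
  exact C.mul_mem (h1 _ hc) (h2 _ hc)

theorem tensorTD_Om (mm : ℕ) : ∀ i j : Fin 2,
    (-(hf mm (ZMod (2 * mm + 1))) ^ 2) • (Om mm i 0 * Om mm 0 j - Om mm 0 j * Om mm i 0)
      + (-(hf mm (ZMod (2 * mm + 1))) ^ 2) • (Om mm i 1 * Om mm 1 j - Om mm 1 j * Om mm i 1)
      - ((-(hf mm (ZMod (2 * mm + 1))) ^ 2) • (Om mm 0 j * Om mm i 0 - Om mm i 0 * Om mm 0 j)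
      + (-(hf mm (ZMod (2 * mm + 1))) ^ 2) • (Om mm 1 j * Om mm i 1 - Om mm i 1 * Om mm 1 j)) =
      Om mm i j := by
  have hh := hfz mm
  unfold Om
  generalize hf mm (ZMod (2 * mm + 1)) = h at *
  intro i j
  ext a b
  fin_cases i <;> fin_cases j <;> fin_cases a <;> fin_cases b <;>
    simp [Matrix.mul_apply, Fin.sum_univ_two] <;> grind

open scoped TensorProduct in
theorem tensorTD {A : Type} [CommRing A] [Algebra (ZMod (2 * mm + 1)) A] (T : TD mm A) :
    ∃ T' : TD mm (A ⊗[ZMod (2 * mm + 1)] A),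
      T'.σ = Algebra.TensorProduct.map T.σ T.σ ∧ T'.πt = Algebra.TensorProduct.map T.πt T.πt ∧
      T'.w = T.w.map (fun x => (x ⊗ₜ[ZMod (2 * mm + 1)] (1 : A) : A ⊗[ZMod (2 * mm + 1)] A)) *
          T.w.map (fun x => ((1 : A) ⊗ₜ[ZMod (2 * mm + 1)] x : A ⊗[ZMod (2 * mm + 1)] A))
        - T.w.map (fun x => ((1 : A) ⊗ₜ[ZMod (2 * mm + 1)] x : A ⊗[ZMod (2 * mm + 1)] A)) *
          T.w.map (fun x => (x ⊗ₜ[ZMod (2 * mm + 1)] (1 : A) : A ⊗[ZMod (2 * mm + 1)] A)) := by
  classical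
  have hfin := T.finS
  let bil : A →ₗ[ZMod (2 * mm + 1)] A →ₗ[ZMod (2 * mm + 1)] M2 (ZMod (2 * mm + 1)) :=
    LinearMap.mk₂ (ZMod (2 * mm + 1)) (fun x y => T.ρ x * T.ρ y - T.ρ y * T.ρ x)
      (by intro a b c; simp only [map_add, add_mul, mul_add]; abel)
      (by intro c a b; simp only [map_smul, smul_mul_assoc, mul_smul_comm, smul_sub])
      (by intro a b c; simp only [map_add, add_mul, mul_add]; abel)
      (by intro c a b; simp only [map_smul, smul_mul_assoc, mul_smul_comm, smul_sub])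
  obtain ⟨ρ', hρ'⟩ : ∃ ρ' : (A ⊗[ZMod (2 * mm + 1)] A) →ₗ[ZMod (2 * mm + 1)] M2 (ZMod (2 * mm + 1)),
      ∀ a b : A, ρ' (a ⊗ₜ[ZMod (2 * mm + 1)] b) =
        (-(hf mm (ZMod (2 * mm + 1))) ^ 2) • (T.ρ a * T.ρ b - T.ρ b * T.ρ a) :=
    ⟨(-(hf mm (ZMod (2 * mm + 1))) ^ 2) • TensorProduct.lift bil, fun a b => rfl⟩
  have hW : ∀ i j, (T.w.map (fun x => (x ⊗ₜ[ZMod (2 * mm + 1)] (1 : A) : A ⊗[ZMod (2 * mm + 1)] A)) *
          T.w.map (fun x => ((1 : A) ⊗ₜ[ZMod (2 * mm + 1)] x : A ⊗[ZMod (2 * mm + 1)] A))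
        - T.w.map (fun x => ((1 : A) ⊗ₜ[ZMod (2 * mm + 1)] x : A ⊗[ZMod (2 * mm + 1)] A)) *
          T.w.map (fun x => (x ⊗ₜ[ZMod (2 * mm + 1)] (1 : A) : A ⊗[ZMod (2 * mm + 1)] A))) i j
      = ((T.w i 0) ⊗ₜ[ZMod (2 * mm + 1)] (T.w 0 j) + (T.w i 1) ⊗ₜ[ZMod (2 * mm + 1)] (T.w 1 j))
        - ((T.w 0 j) ⊗ₜ[ZMod (2 * mm + 1)] (T.w i 0) + (T.w 1 j) ⊗ₜ[ZMod (2 * mm + 1)] (T.w i 1)) := by
    intro i j
    simp only [Matrix.sub_apply, Matrix.mul_apply, Fin.sum_univ_two, Matrix.map_apply,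
      Algebra.TensorProduct.tmul_mul_tmul, mul_one, one_mul]
  refine ⟨{ σ := Algebra.TensorProduct.map T.σ T.σ
            S := T.S ⊕ T.S
            finS := inferInstance
            π := Sum.elim (fun s => Algebra.TensorProduct.map (T.π s) (AlgHom.id (ZMod (2 * mm + 1)) A))
              (fun s => Algebra.TensorProduct.map (AlgHom.id (ZMod (2 * mm + 1)) A) (T.π s))
            πt := Algebra.TensorProduct.map T.πt T.πt
            w := T.w.map (fun x => (x ⊗ₜ[ZMod (2 * mm + 1)] (1 : A) : A ⊗[ZMod (2 * mm + 1)] A)) *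
                T.w.map (fun x => ((1 : A) ⊗ₜ[ZMod (2 * mm + 1)] x : A ⊗[ZMod (2 * mm + 1)] A))
              - T.w.map (fun x => ((1 : A) ⊗ₜ[ZMod (2 * mm + 1)] x : A ⊗[ZMod (2 * mm + 1)] A)) *
                T.w.map (fun x => (x ⊗ₜ[ZMod (2 * mm + 1)] (1 : A) : A ⊗[ZMod (2 * mm + 1)] A))
            ρ := ρ'
            comm := ?_
            sq := ?_
            clos := tensorTD_clos T.π T.πt T.clos
            τw := ?_
            ww := ?_
            πw := ?_
            ρσ := ?_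
            ρw := ?_ }, rfl, rfl, rfl⟩
  · -- comm
    rintro (s | s) x
    · simp only [Sum.elim_inl]
      induction x using TensorProduct.induction_on with
      | zero => simp
      | tmul a b => simp [T.comm]
      | add a b ha hb => simp only [map_add, ha, hb]
    · simp only [Sum.elim_inr]
      induction x using TensorProduct.induction_on with
      | zero => simp
      | tmul a b => simp [T.comm]
      | add a b ha hb => simp only [map_add, ha, hb]
  · -- sq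
    rintro (s | s) x y
    · simp only [Sum.elim_inl]
      induction x using TensorProduct.induction_on with
      | zero => simp
      | add a b ha hb =>
        rw [map_add, add_sub_add_comm, add_mul, ha, hb, add_zero]
      | tmul a b =>
        induction y using TensorProduct.induction_on with
        | zero => simp
        | add c d hc hd =>
          rw [map_add, add_sub_add_comm, mul_add, hc, hd, add_zero]
        | tmul c d =>
          rw [Algebra.TensorProduct.map_tmul, Algebra.TensorProduct.map_tmul, AlgHom.id_apply,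
            AlgHom.id_apply, ← TensorProduct.sub_tmul, ← TensorProduct.sub_tmul,
            Algebra.TensorProduct.tmul_mul_tmul, T.sq, TensorProduct.zero_tmul]
    · simp only [Sum.elim_inr]
      induction x using TensorProduct.induction_on with
      | zero => simp
      | add a b ha hb =>
        rw [map_add, add_sub_add_comm, add_mul, ha, hb, add_zero]
      | tmul a b =>
        induction y using TensorProduct.induction_on with
        | zero => simp
        | add c d hc hd =>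
          rw [map_add, add_sub_add_comm, mul_add, hc, hd, add_zero]
        | tmul c d =>
          rw [Algebra.TensorProduct.map_tmul, Algebra.TensorProduct.map_tmul, AlgHom.id_apply,
            AlgHom.id_apply, ← TensorProduct.tmul_sub, ← TensorProduct.tmul_sub,
            Algebra.TensorProduct.tmul_mul_tmul, T.sq, TensorProduct.tmul_zero]
  · -- τw
    have hx : tau ((Algebra.TensorProduct.map T.σ T.σ : (A ⊗[ZMod (2 * mm + 1)] A) →ₐ[ZMod (2 * mm + 1)] (A ⊗[ZMod (2 * mm + 1)] A)) :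
        (A ⊗[ZMod (2 * mm + 1)] A) →+* (A ⊗[ZMod (2 * mm + 1)] A))
        (T.w.map (fun x => (x ⊗ₜ[ZMod (2 * mm + 1)] (1 : A) : A ⊗[ZMod (2 * mm + 1)] A)))
        = T.w.map (fun x => (x ⊗ₜ[ZMod (2 * mm + 1)] (1 : A) : A ⊗[ZMod (2 * mm + 1)] A)) := by
      have h := tensorTD_tau_map (T.σ : A →+* A)
        ((Algebra.TensorProduct.map T.σ T.σ : (A ⊗[ZMod (2 * mm + 1)] A) →ₐ[ZMod (2 * mm + 1)] (A ⊗[ZMod (2 * mm + 1)] A)) :
          (A ⊗[ZMod (2 * mm + 1)] A) →+* (A ⊗[ZMod (2 * mm + 1)] A))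
        ((Algebra.TensorProduct.includeLeft : A →ₐ[ZMod (2 * mm + 1)] A ⊗[ZMod (2 * mm + 1)] A) : A →+* A ⊗[ZMod (2 * mm + 1)] A)
        (by intro a; simp) T.w
      rw [T.τw] at h
      exact h
    have hy : tau ((Algebra.TensorProduct.map T.σ T.σ : (A ⊗[ZMod (2 * mm + 1)] A) →ₐ[ZMod (2 * mm + 1)] (A ⊗[ZMod (2 * mm + 1)] A)) :
        (A ⊗[ZMod (2 * mm + 1)] A) →+* (A ⊗[ZMod (2 * mm + 1)] A))
        (T.w.map (fun x => ((1 : A) ⊗ₜ[ZMod (2 * mm + 1)] x : A ⊗[ZMod (2 * mm + 1)] A)))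
        = T.w.map (fun x => ((1 : A) ⊗ₜ[ZMod (2 * mm + 1)] x : A ⊗[ZMod (2 * mm + 1)] A)) := by
      have h := tensorTD_tau_map (T.σ : A →+* A)
        ((Algebra.TensorProduct.map T.σ T.σ : (A ⊗[ZMod (2 * mm + 1)] A) →ₐ[ZMod (2 * mm + 1)] (A ⊗[ZMod (2 * mm + 1)] A)) :
          (A ⊗[ZMod (2 * mm + 1)] A) →+* (A ⊗[ZMod (2 * mm + 1)] A))
        ((Algebra.TensorProduct.includeRight : A →ₐ[ZMod (2 * mm + 1)] A ⊗[ZMod (2 * mm + 1)] A) : A →+* A ⊗[ZMod (2 * mm + 1)] A)
        (by intro a; simp) T.w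
      rw [T.τw] at h
      exact h
    rw [map_sub, map_mul, map_mul, hx, hy]
  · -- ww
    intro i j k l
    rw [hW, hW]
    simp only [sub_mul, mul_sub, add_mul, mul_add, Algebra.TensorProduct.tmul_mul_tmul, T.ww,
      TensorProduct.zero_tmul, add_zero, sub_zero]
  · -- πw
    intro i j
    rw [hW]
    simp only [map_sub, map_add, Algebra.TensorProduct.map_tmul, T.πw, TensorProduct.zero_tmul,
      add_zero, sub_zero]
  · -- ρσ
    intro x
    induction x using TensorProduct.induction_on with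
    | zero => simp
    | add a b ha hb => rw [map_add, map_add, ha, hb, map_add, mul_add, add_mul]
    | tmul a b =>
      rw [Algebra.TensorProduct.map_tmul, hρ', hρ', T.ρσ, T.ρσ]
      exact conj_comm _ _ _
  · -- ρw
    intro i j
    rw [hW]
    simp only [map_sub, map_add, hρ', T.ρw]
    exact tensorTD_Om mm i j


end Pool.Agent.H75Kh
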