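import Pool.Agent.H75Kh.K5

set_option autoImplicit false

namespace Pool.Agent.H75Kh

open Matrix Pool.Agent.Helper904.Kh

variable {mm : ℕ}



theorem ugw_ww {A : Type} [CommRing A] [Algebra (ZMod (2 * mm + 1)) A] (T : TD mm A) : T.w * T.w = 0 := by
  ext i j
  rw [Matrix.mul_apply, Fin.sum_univ_two, T.ww, T.ww]
  simp

theorem ugw_ρ {A : Type} [CommRing A] [Algebra (ZMod (2 * mm + 1)) A] (T : TD mm A) (x : A) :
    T.ρ (T.σ x) 0 0 = T.ρ x 0 0 + T.ρ x 1 0 ∧
    T.ρ (T.σ x) 0 1 = T.ρ x 0 1 + T.ρ x 1 1 - T.ρ x 0 0 - T.ρ x 1 0 ∧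
    T.ρ (T.σ x) 1 0 = T.ρ x 1 0 ∧
    T.ρ (T.σ x) 1 1 = T.ρ x 1 1 - T.ρ x 1 0 := by
  rw [T.ρσ]
  refine ⟨?_, ?_, ?_, ?_⟩ <;>
  · simp only [uM, vM, Matrix.mul_apply, Fin.sum_univ_two, Matrix.of_apply, Matrix.cons_val',
      Matrix.cons_val_zero, Matrix.cons_val_one, Matrix.cons_val_fin_one]
    ring

theorem UG_w {A : Type} [CommRing A] [Algebra (ZMod (2 * mm + 1)) A] (T : TD mm A) :
    ∃ g : UG T, ((g : (M2 A)ˣ) : M2 A) = 1 + T.w := by
  have hww := ugw_ww T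
  refine ⟨⟨⟨1 + T.w, 1 - T.w, ?_, ?_⟩, ?_, ?_⟩, rfl⟩
  · have : (1 + T.w) * (1 - T.w) = 1 - T.w * T.w := by noncomm_ring
    rw [this, hww, sub_zero]
  · have : (1 - T.w) * (1 + T.w) = 1 - T.w * T.w := by noncomm_ring
    rw [this, hww, sub_zero]
  · show tau (T.σ : A →+* A) (1 + T.w) = 1 + T.w
    rw [map_add, map_one, T.τw]
  · show (T.πt : A →+* A).mapMatrix (1 + T.w) = 1
    have h0 : (T.πt : A →+* A).mapMatrix T.w = 0 := by
      ext i j
      exact T.πw i j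
    rw [map_add, map_one, h0, add_zero]

theorem w_notin (h4 : 4 ≤ 2 * mm + 1) {A : Type} [CommRing A] [Algebra (ZMod (2 * mm + 1)) A]
    (T : TD mm A) :
    T.w ∉ JJ (T.σ : A →+* A) := by
  rintro ⟨n, hn⟩
  have h00 : T.w 0 0 = T.σ (n 0 0) + T.σ (n 1 0) - n 0 0 := by
    rw [hn, Matrix.sub_apply, tau_00]; rfl
  have h01 : T.w 0 1 = T.σ (n 0 1) + T.σ (n 1 1) - T.σ (n 0 0) - T.σ (n 1 0) - n 0 1 := by
    rw [hn, Matrix.sub_apply, tau_01]; rfl
  have h10 : T.w 1 0 = T.σ (n 1 0) - n 1 0 := by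
    rw [hn, Matrix.sub_apply, tau_10]; rfl
  have h11 : T.w 1 1 = T.σ (n 1 1) - T.σ (n 1 0) - n 1 1 := by
    rw [hn, Matrix.sub_apply, tau_11]; rfl
  have r00 := congrFun (congrFun (T.ρw 0 0) 0) 0
  have r01 := congrFun (congrFun (T.ρw 0 1) 1) 0
  have r10 := congrFun (congrFun (T.ρw 1 0) 0) 1
  have r11 := congrFun (congrFun (T.ρw 1 1) 1) 1
  rw [h00] at r00
  rw [h01] at r01
  rw [h10] at r10
  rw [h11] at r11
  simp only [map_add, map_sub, Matrix.add_apply, Matrix.sub_apply] at r00 r01 r10 r11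
  obtain ⟨a1, a2, a3, a4⟩ := ugw_ρ T (n 0 0)
  obtain ⟨b1, b2, b3, b4⟩ := ugw_ρ T (n 0 1)
  obtain ⟨c1, c2, c3, c4⟩ := ugw_ρ T (n 1 0)
  obtain ⟨d1, d2, d3, d4⟩ := ugw_ρ T (n 1 1)
  rw [a1, c1] at r00
  rw [b3, d3, a3, c3] at r01
  rw [c2] at r10
  rw [d4, c4] at r11
  have o00 : Om mm 0 0 0 0 = hf mm (ZMod (2 * mm + 1)) := rfl
  have o01 : Om mm 0 1 1 0 = 1 := rfl
  have o10 : Om mm 1 0 0 1 = 1 := rfl
  have o11 : Om mm 1 1 1 1 = hf mm (ZMod (2 * mm + 1)) := rfl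
  rw [o00] at r00
  rw [o01] at r01
  rw [o10] at r10
  rw [o11] at r11
  have h8 : ((3 : ℕ) : ZMod (2 * mm + 1)) = 0 := by
    push_cast
    linear_combination -(r00 + r01 + r10 + r11) - hfz mm
  rw [ZMod.natCast_eq_zero_iff] at h8
  have := Nat.le_of_dvd (by norm_num) h8
  omega



theorem map_uM {R S : Type} [CommRing R] [CommRing S] (f : R →+* S) :
    f.mapMatrix (uM R) = uM S := by
  ext a b
  fin_cases a <;> fin_cases b <;> simp [uM]

theorem map_vM {R S : Type} [CommRing R] [CommRing S] (f : R →+* S) :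
    f.mapMatrix (vM R) = vM S := by
  ext a b
  fin_cases a <;> fin_cases b <;> simp [vM]

theorem tau_nat {R S : Type} [CommRing R] [CommRing S] (f : R →+* S) (σ : R →+* R)
    (σ' : S →+* S) (h : ∀ x, f (σ x) = σ' (f x)) (m : M2 R) :
    tau σ' (f.mapMatrix m) = f.mapMatrix (tau σ m) := by
  rw [tau_apply, tau_apply, map_mul, map_mul, map_uM, map_vM]
  congr 2
  ext a b
  simp [h]

/-- the group homomorphism given by a homomorphism of the data -/
def mapUG {A B : Type} [CommRing A] [Algebra (ZMod (2 * mm + 1)) A] [CommRing B] [Algebra (ZMod (2 * mm + 1)) B]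
    (T : TD mm A) (T' : TD mm B) (i : A →+* B) (h1 : ∀ x, i (T.σ x) = T'.σ (i x))
    (h2 : ∀ x, i (T.πt x) = T'.πt (i x)) : UG T →* UG T' :=
  ((Units.map (i.mapMatrix : M2 A →+* M2 B).toMonoidHom).comp (UG T).subtype).codRestrict (UG T')
    (by
      rintro ⟨g, hg1, hg2⟩
      constructor
      · change tau (T'.σ : B →+* B) (i.mapMatrix (g : M2 A)) = i.mapMatrix (g : M2 A)
        rw [tau_nat i (T.σ : A →+* A) (T'.σ : B →+* B) h1, hg1]
      · change (T'.πt : B →+* B).mapMatrix (i.mapMatrix (g : M2 A)) = 1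
        have h3 : (T'.πt : B →+* B).mapMatrix (i.mapMatrix (g : M2 A))
            = i.mapMatrix ((T.πt : A →+* A).mapMatrix (g : M2 A)) := by
          ext a b
          simp [h2]
        rw [h3, hg2, map_one])

theorem mapUG_coe {A B : Type} [CommRing A] [Algebra (ZMod (2 * mm + 1)) A] [CommRing B]
    [Algebra (ZMod (2 * mm + 1)) B]
    (T : TD mm A) (T' : TD mm B) (i : A →+* B) (h1 : ∀ x, i (T.σ x) = T'.σ (i x))
    (h2 : ∀ x, i (T.πt x) = T'.πt (i x)) (g : UG T) :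
    ((mapUG T T' i h1 h2 g : (M2 B)ˣ) : M2 B) = i.mapMatrix ((g : (M2 A)ˣ) : M2 A) := rfl

theorem xMx {B : Type} [CommRing B] (x : M2 B) (h : ∀ i j k l, x i j * x k l = 0) (M : M2 B) :
    x * M * x = 0 := by
  ext i j
  simp only [Matrix.mul_apply, Fin.sum_univ_two, Matrix.zero_apply]
  linear_combination M 0 0 * h i 0 0 j + M 1 0 * h i 1 0 j + M 0 1 * h i 0 1 j
    + M 1 1 * h i 1 1 j

theorem comm_calc {B : Type} [CommRing B] (x y : M2 B) (hx : ∀ M, x * M * x = 0)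
    (hy : ∀ M, y * M * y = 0) :
    (1 + (x * y - y * x)) * ((1 + y) * (1 + x)) = (1 + x) * (1 + y) := by
  have hxx : x * x = 0 := by simpa using hx 1
  have hyy : y * y = 0 := by simpa using hy 1
  have h1 : x * y * x = 0 := hx y
  have h2 : x * y * y = 0 := by rw [mul_assoc, hyy, mul_zero]
  have h3 : y * x * x = 0 := by rw [mul_assoc, hxx, mul_zero]
  have h4 : y * x * y = 0 := hy x
  have h5 : x * y * (y * x) = 0 := by rw [← mul_assoc, h2, zero_mul]
  have h6 : y * x * (y * x) = 0 := by rw [← mul_assoc, h4, zero_mul]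
  simp only [mul_add, add_mul, sub_mul, one_mul, mul_one, h1, h2, h3, h4, h5, h6]
  abel

theorem comm_units {M : Type} [Monoid M] {G : Subgroup Mˣ} (a b : G) (p q r : M)
    (ha : ((a : Mˣ) : M) = p) (hb : ((b : Mˣ) : M) = q) (key : r * (q * p) = p * q) :
    (((a * b * a⁻¹ * b⁻¹ : G) : Mˣ) : M) = r := by
  have h1 : a * b * a⁻¹ * b⁻¹ * (b * a) = a * b := by group
  have h2 : (((a * b * a⁻¹ * b⁻¹ : G) : Mˣ) : M) * (q * p) = p * q := by
    have h3 := congrArg (fun z : G => ((z : Mˣ) : M)) h1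
    simp only [Subgroup.coe_mul, Units.val_mul] at h3
    simp only [Subgroup.coe_mul, Units.val_mul]
    rw [← ha, ← hb]
    exact h3
  have hu : IsUnit (q * p) := by
    rw [← ha, ← hb, ← Units.val_mul]
    exact Units.isUnit _
  rw [← key] at h2
  exact hu.mul_right_cancel h2

theorem exists_mapUG {A B : Type} [CommRing A] [Algebra (ZMod (2 * mm + 1)) A] [CommRing B]
    [Algebra (ZMod (2 * mm + 1)) B]
    (T : TD mm A) (T' : TD mm B) (i : A →+* B) (h1 : ∀ x, i (T.σ x) = T'.σ (i x))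
    (h2 : ∀ x, i (T.πt x) = T'.πt (i x)) :
    ∃ L : UG T →* UG T', ∀ g : UG T, ((L g : (M2 B)ˣ) : M2 B)
      = i.mapMatrix ((g : (M2 A)ˣ) : M2 A) :=
  ⟨mapUG T T' i h1 h2, fun _ => rfl⟩

open scoped commutatorElement in
theorem step_aux {A B : Type} [CommRing A] [Algebra (ZMod (2 * mm + 1)) A] [CommRing B]
    [Algebra (ZMod (2 * mm + 1)) B] (T : TD mm A) (T' : TD mm B) (iL iR : A →+* B)
    (hL1 : ∀ x, iL (T.σ x) = T'.σ (iL x)) (hL2 : ∀ x, iL (T.πt x) = T'.πt (iL x))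
    (hR1 : ∀ x, iR (T.σ x) = T'.σ (iR x)) (hR2 : ∀ x, iR (T.πt x) = T'.πt (iR x))
    (hwk : T'.w = iL.mapMatrix T.w * iR.mapMatrix T.w - iR.mapMatrix T.w * iL.mapMatrix T.w)
    (k : ℕ) (g : UG T) (hg : ((g : (M2 A)ˣ) : M2 A) = 1 + T.w)
    (hk : g ∈ derivedSeries (UG T) k) :
    ∃ g' : UG T', ((g' : (M2 B)ˣ) : M2 B) = 1 + T'.w ∧ g' ∈ derivedSeries (UG T') (k + 1) := by
  obtain ⟨L, hL⟩ := exists_mapUG T T' iL hL1 hL2
  obtain ⟨R, hR⟩ := exists_mapUG T T' iR hR1 hR2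
  have hLk : L g ∈ derivedSeries (UG T') k :=
    map_derivedSeries_le_derivedSeries L k (Subgroup.mem_map_of_mem L hk)
  have hRk : R g ∈ derivedSeries (UG T') k :=
    map_derivedSeries_le_derivedSeries R k (Subgroup.mem_map_of_mem R hk)
  have hww : ∀ i j k l, iL.mapMatrix T.w i j * iL.mapMatrix T.w k l = 0 := by
    intro i j k l
    rw [RingHom.mapMatrix_apply, Matrix.map_apply, Matrix.map_apply, ← map_mul, T.ww, map_zero]
  have hww' : ∀ i j k l, iR.mapMatrix T.w i j * iR.mapMatrix T.w k l = 0 := by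
    intro i j k l
    rw [RingHom.mapMatrix_apply, Matrix.map_apply, Matrix.map_apply, ← map_mul, T.ww, map_zero]
  have key := comm_calc (iL.mapMatrix T.w) (iR.mapMatrix T.w) (xMx _ hww) (xMx _ hww')
  have cL := hL g
  rw [hg, map_add, map_one] at cL
  have cR := hR g
  rw [hg, map_add, map_one] at cR
  rw [← hwk] at key
  refine ⟨L g * R g * (L g)⁻¹ * (R g)⁻¹, comm_units (L g) (R g) _ _ _ cL cR key, ?_⟩
  rw [derivedSeries_succ]
  exact Subgroup.commutator_mem_commutator hLk hRk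

theorem stepTD {A : Type} [CommRing A] [Algebra (ZMod (2 * mm + 1)) A] [Finite A] (T : TD mm A) (k : ℕ)
    (g : UG T) (hg : ((g : (M2 A)ˣ) : M2 A) = 1 + T.w) (hk : g ∈ derivedSeries (UG T) k) :
    ∃ (B : Type) (_ : CommRing B) (_ : Algebra (ZMod (2 * mm + 1)) B) (_ : Finite B) (T' : TD mm B)
      (g' : UG T'), ((g' : (M2 B)ˣ) : M2 B) = 1 + T'.w ∧ g' ∈ derivedSeries (UG T') (k + 1) := by
  obtain ⟨T', hσ, hπ, hw⟩ := tensorTD T
  have hfin : Finite (TensorProduct (ZMod (2 * mm + 1)) A A) := Module.finite_of_finite (ZMod (2 * mm + 1))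
  have hL1 : ∀ x, ((Algebra.TensorProduct.includeLeft : A →ₐ[ZMod (2 * mm + 1)] TensorProduct (ZMod (2 * mm + 1)) A A) :
      A →+* TensorProduct (ZMod (2 * mm + 1)) A A) (T.σ x) = T'.σ (((Algebra.TensorProduct.includeLeft :
      A →ₐ[ZMod (2 * mm + 1)] TensorProduct (ZMod (2 * mm + 1)) A A) : A →+* TensorProduct (ZMod (2 * mm + 1)) A A) x) := by
    intro x
    rw [hσ]
    simp
  have hL2 : ∀ x, ((Algebra.TensorProduct.includeLeft : A →ₐ[ZMod (2 * mm + 1)] TensorProduct (ZMod (2 * mm + 1)) A A) :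
      A →+* TensorProduct (ZMod (2 * mm + 1)) A A) (T.πt x) = T'.πt (((Algebra.TensorProduct.includeLeft :
      A →ₐ[ZMod (2 * mm + 1)] TensorProduct (ZMod (2 * mm + 1)) A A) : A →+* TensorProduct (ZMod (2 * mm + 1)) A A) x) := by
    intro x
    rw [hπ]
    simp
  have hR1 : ∀ x, ((Algebra.TensorProduct.includeRight : A →ₐ[ZMod (2 * mm + 1)] TensorProduct (ZMod (2 * mm + 1)) A A) :
      A →+* TensorProduct (ZMod (2 * mm + 1)) A A) (T.σ x) = T'.σ (((Algebra.TensorProduct.includeRight :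
      A →ₐ[ZMod (2 * mm + 1)] TensorProduct (ZMod (2 * mm + 1)) A A) : A →+* TensorProduct (ZMod (2 * mm + 1)) A A) x) := by
    intro x
    rw [hσ]
    simp
  have hR2 : ∀ x, ((Algebra.TensorProduct.includeRight : A →ₐ[ZMod (2 * mm + 1)] TensorProduct (ZMod (2 * mm + 1)) A A) :
      A →+* TensorProduct (ZMod (2 * mm + 1)) A A) (T.πt x) = T'.πt (((Algebra.TensorProduct.includeRight :
      A →ₐ[ZMod (2 * mm + 1)] TensorProduct (ZMod (2 * mm + 1)) A A) : A →+* TensorProduct (ZMod (2 * mm + 1)) A A) x) := by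
    intro x
    rw [hπ]
    simp
  obtain ⟨g', h1, h2⟩ := step_aux T T' _ _ hL1 hL2 hR1 hR2 hw k g hg hk
  exact ⟨TensorProduct (ZMod (2 * mm + 1)) A A, inferInstance, inferInstance, hfin, T', g', h1, h2⟩



theorem chain_k (mm k : ℕ) : ∃ (A : Type) (_ : CommRing A) (_ : Algebra (ZMod (2 * mm + 1)) A) (_ : Finite A)
    (T : TD mm A) (g : UG T), ((g : (M2 A)ˣ) : M2 A) = 1 + T.w ∧ g ∈ derivedSeries (UG T) k := by
  induction k with
  | zero =>
    obtain ⟨A, i1, i2, i3, ⟨T⟩⟩ := baseTD mm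
    obtain ⟨g, hg⟩ := UG_w T
    exact ⟨A, i1, i2, i3, T, g, hg, by rw [derivedSeries_zero]; exact Subgroup.mem_top g⟩
  | succ k ih =>
    obtain ⟨A, i1, i2, i3, T, g, hg, hk⟩ := ih
    exact stepTD T k g hg hk

theorem good_all (n k : ℕ) [hp : Fact (2 * (n + 1) + 1).Prime] (h4 : 4 ≤ 2 * (n + 1) + 1) :
    Good (n + 1) k := by
  obtain ⟨A, i1, i2, i3, T, g, hg, hk⟩ := chain_k (n + 1) k
  haveI := T.finS
  have h5 : ((2 * (n + 1) + 1 : ℕ) : A) = 0 := by
    have h1 : (algebraMap (ZMod (2 * (n + 1) + 1)) A) ((2 * (n + 1) + 1 : ℕ) : ZMod (2 * (n + 1) + 1)) =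
      ((2 * (n + 1) + 1 : ℕ) : A) := map_natCast _ _
    rw [← h1, ZMod.natCast_self, map_zero]
  have hclos : ((T.πt : A →ₐ[ZMod (2 * (n + 1) + 1)] A) : A →+* A) ∈
      Submonoid.closure (Set.range (fun s : T.S => ((T.π s : A →ₐ[ZMod (2 * (n + 1) + 1)] A) : A →+* A))) := by
    have h := T.clos
    generalize T.πt = x at h ⊢
    induction h using Submonoid.closure_induction with
    | mem x hx =>
      obtain ⟨s, rfl⟩ := hx
      exact Submonoid.subset_closure ⟨s, rfl⟩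
    | one => exact Submonoid.one_mem _
    | mul x y _ _ hx hy => exact Submonoid.mul_mem _ hx hy
  refine truncMain (A := A) (S := T.S) (L := UG T) h5 (T.σ : A →+* A)
    (fun s => (T.π s : A →+* A)) (fun s x => T.comm s x) (fun s x y => T.sq s x y)
    (T.πt : A →+* A) hclos ((Units.coeHom (M2 A)).comp (UG T).subtype)
    (fun l => l.2.1) (fun l => l.2.2) k g hk ?_
  have h1 : ((Units.coeHom (M2 A)).comp (UG T).subtype) g - 1 = T.w := by
    change ((g : (M2 A)ˣ) : M2 A) - 1 = T.w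
    rw [hg, add_sub_cancel_left]
  rw [h1]
  exact w_notin h4 T


theorem final_core {mm : ℕ} [hp : Fact (2 * mm + 1).Prime] (k : ℕ) (hk : 1 ≤ k) (h : Good mm k) :
    ∃ (G : Type) (_ : Group G) (_ : Finite G), IsPGroup (2 * mm + 1) G ∧
      ∃ φ : MulAut G, orderOf φ = 2 * mm + 1 ∧ (∀ g : G, φ g = g → g ∈ Subgroup.center G) ∧
        derivedSeries G k ≠ ⊥ := by
  obtain ⟨G, iG, iF, hP, e, he, hfix, hd⟩ := h
  refine ⟨G, iG, iF, hP, ?_⟩
  let φ : MulAut G :=
    { toFun := fun g => e g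
      invFun := fun g => e^[2 * mm] g
      left_inv := fun g => by
        show e^[2 * mm] (e g) = g
        rw [← Function.iterate_succ_apply]
        exact he g
      right_inv := fun g => by
        show e (e^[2 * mm] g) = g
        exact (Function.iterate_succ_apply' e (2 * mm) g).symm.trans (he g)
      map_mul' := fun x y => map_mul e x y }
  have hφ : ∀ g, φ g = e g := fun g => rfl
  have hn : ∀ (n : ℕ) (g : G), (φ ^ n) g = e^[n] g := by
    intro n
    induction n with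
    | zero => intro g; rfl
    | succ n ih =>
      intro g
      rw [pow_succ, MulAut.mul_apply, ih, hφ, Function.iterate_succ_apply]
  have h5 : φ ^ (2 * mm + 1) = 1 := by
    ext g
    rw [hn, he]
    rfl
  have h1 : φ ≠ 1 := by
    intro h1
    apply hd
    have hc : Subgroup.center G = ⊤ := by
      rw [Subgroup.eq_top_iff']
      intro g
      apply hfix
      rw [← hφ, h1]
      rfl
    have h2 : derivedSeries G 1 = ⊥ := by
      rw [derivedSeries_one]
      exact (commutator_eq_bot_iff_center_eq_top G).2 hc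
    have h3 := derivedSeries_antitone G hk
    rw [h2] at h3
    exact le_bot_iff.1 h3
  exact ⟨φ, orderOf_eq_prime h5 h1, fun g hg => hfix g hg, hd⟩

theorem main (p : ℕ) (hp : p.Prime) (h5 : 5 ≤ p) (k : ℕ) :
    ∃ (G : Type) (_ : Group G) (_ : Finite G), IsPGroup p G ∧
      ∃ φ : MulAut G, orderOf φ = p ∧ (∀ g : G, φ g = g → g ∈ Subgroup.center G) ∧
        derivedSeries G k ≠ ⊥ := by
  have hodd : ¬ Even p := by
    intro he
    have := (hp.even_iff).1 he
    omega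
  rw [Nat.not_even_iff_odd] at hodd
  obtain ⟨m, rfl⟩ := hodd
  obtain ⟨n, rfl⟩ : ∃ n, m = n + 1 := ⟨m - 1, by omega⟩
  have : Fact (2 * (n + 1) + 1).Prime := ⟨hp⟩
  obtain ⟨G, iG, iF, hP, φ, h1, h2, h3⟩ := final_core (mm := n + 1) (k + 1) (by omega)
    (good_all n (k + 1) (by omega))
  refine ⟨G, iG, iF, hP, φ, h1, h2, ?_⟩
  intro h
  apply h3
  have h4 := derivedSeries_antitone G (Nat.le_succ k)
  rw [h] at h4
  exact le_bot_iff.1 h4

end Pool.Agent.H75Kh
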